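import Pool.Agent.H20.AL.Defs

/-!
# TRN: turning less than 30 degrees gives disjoint cones (MP_591ade_co, p = 6, task T3, part A)

`om = e^{iπ/3}`, `Dir u k = u * om ^ k` (six lattice directions), `Turn d w`: the direction of `w` differs from the direction
of `d` by less than 30 degrees.
-/

set_option autoImplicit false

open Set

noncomputable section

namespace Pool.Agent.H16.T3

open Pool.Agent.H20.AL

/-- rotation by 60 degrees -/
def om : ℂ := ⟨1 / 2, √3 / 2⟩

/-- the six directions -/
def Dir (u : ℂ) (k : Fin 6) : ℂ := u * om ^ (k : ℕ)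

/-- `w` turns by less than 30 degrees from `d` -/
def Turn (d w : ℂ) : Prop := √3 * |cr d w| < dt d w

theorem sq3 : √3 * √3 = 3 := Real.mul_self_sqrt (by norm_num)

theorem sq3_pos : 0 < √3 := Real.sqrt_pos.2 (by norm_num)

theorem om_re : om.re = 1 / 2 := rfl
theorem om_im : om.im = √3 / 2 := rfl

theorem cr_mul (r u v : ℂ) : cr (r * u) (r * v) = (r.re ^ 2 + r.im ^ 2) * cr u v := by
  simp [cr]; ring

theorem dt_mul (r u v : ℂ) : dt (r * u) (r * v) = (r.re ^ 2 + r.im ^ 2) * dt u v := by
  simp [dt]; ring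

theorem om_nsq : om.re ^ 2 + om.im ^ 2 = 1 := by
  rw [om_re, om_im]; nlinarith [sq3]

theorem om_sq : om ^ 2 = om - 1 := by
  apply Complex.ext
  · rw [pow_two, Complex.mul_re, Complex.sub_re, om_re, om_im, Complex.one_re]; nlinarith [sq3]
  · rw [pow_two, Complex.mul_im, Complex.sub_im, om_re, om_im, Complex.one_im]; ring

theorem om_cube : om ^ 3 = -1 := by
  have h : om ^ 3 = om ^ 2 * om := by ring
  rw [h, om_sq]
  have h2 : (om - 1) * om = om ^ 2 - om := by ring
  rw [h2, om_sq]; ring

theorem om_six : om ^ 6 = 1 := by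
  have h : om ^ 6 = (om ^ 3) ^ 2 := by ring
  rw [h, om_cube]; norm_num

theorem om_ne : om ≠ 0 := by
  intro h
  have := om_six
  rw [h] at this
  norm_num at this

theorem Dir_succ (u : ℂ) (k : Fin 6) : Dir u (k + 1) = om * Dir u k := by
  unfold Dir
  fin_cases k
  · simp; ring
  · simp; ring
  · simp; ring
  · simp; ring
  · simp; ring
  · have h := om_six
    have h2 : om * (u * om ^ 5) = u * om ^ 6 := by ring
    simp only [Fin.reduceFinMk, Fin.isValue]
    change u * om ^ 0 = om * (u * om ^ 5)
    rw [h2, h]; ring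

theorem Dir_two (u : ℂ) (k : Fin 6) : Dir u (k + 2) = Dir u (k + 1) - Dir u k := by
  have h : k + 2 = k + 1 + 1 := by rw [add_assoc]; rfl
  have h2 : om * (om * Dir u k) = om ^ 2 * Dir u k := by ring
  rw [h, Dir_succ, Dir_succ, h2, om_sq]; ring

theorem Dir_three (u : ℂ) (k : Fin 6) : Dir u (k + 3) = -Dir u k := by
  have h : k + 3 = k + 2 + 1 := by rw [add_assoc]; rfl
  rw [h, Dir_succ, Dir_two, Dir_succ]
  have h2 : om * (om * Dir u k - Dir u k) = (om ^ 2 - om) * Dir u k := by ring
  rw [h2, om_sq]; ring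

theorem turn_neg {d w : ℂ} (h : Turn d w) : Turn (-d) (-w) := by
  unfold Turn at *
  have h1 : cr (-d) (-w) = cr d w := by simp [cr]
  have h2 : dt (-d) (-w) = dt d w := by simp [dt]
  rw [h1, h2]; exact h

/-- `Turn` in terms of two linear inequalities -/
theorem turn_iff {d w : ℂ} : Turn d w ↔ √3 * cr d w < dt d w ∧ -(√3 * cr d w) < dt d w := by
  unfold Turn
  have h : √3 * |cr d w| = |√3 * cr d w| := by rw [abs_mul, abs_of_pos sq3_pos]
  rw [h, abs_lt]
  constructor
  · rintro ⟨h1, h2⟩
    exact ⟨h2, by linarith⟩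
  · rintro ⟨h1, h2⟩
    exact ⟨by linarith, h1⟩

/-- Cramer: linear functionals on a cone -/
theorem cramer_cr (f a b p : ℂ) : cr p f * cr a b = cr a f * cr p b + cr b f * cr a p := by
  simp [cr]; ring

theorem cramer_dt (f a b p : ℂ) : dt p f * cr a b = dt a f * cr p b + dt b f * cr a p := by
  simp [cr, dt]; ring

/-- two cones on different sides of a line through the apex -/
theorem sep_dt {f a b a' b' : ℂ} (hab : 0 < cr a b) (hab' : 0 < cr a' b')
    (h1 : 0 < dt a f) (h2 : 0 < dt b f) (h3 : dt a' f < 0) (h4 : dt b' f < 0) {p : ℂ}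
    (hp1 : 0 < cr a p) (hp2 : 0 < cr p b) (hp3 : 0 < cr a' p) (hp4 : 0 < cr p b') : False := by
  have e1 := cramer_dt f a b p
  have e2 := cramer_dt f a' b' p
  have p1 : 0 < dt p f * cr a b := by rw [e1]; positivity
  have p2 : dt p f * cr a' b' < 0 := by rw [e2]; nlinarith [mul_pos (neg_pos.2 h3) hp4, mul_pos (neg_pos.2 h4) hp3]
  have q1 : 0 < dt p f := by
    by_contra h
    push Not at h
    nlinarith
  nlinarith [mul_pos q1 hab']

/-- the cross product of vectors in consecutive sectors -/
theorem cr_next {d a b : ℂ} (ha : Turn d a) (hb : Turn (om * d) b) : 0 < cr a b := by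
  rw [turn_iff] at ha hb
  -- write a, b in the frame of d
  have key : cr a b * (d.re ^ 2 + d.im ^ 2) = dt d a * cr d b - cr d a * dt d b := by
    simp [cr, dt]; ring
  have hn : 0 < d.re ^ 2 + d.im ^ 2 := by
    by_contra h
    push Not at h
    have h1 : d.re = 0 := by nlinarith [sq_nonneg d.re, sq_nonneg d.im]
    have h2 : d.im = 0 := by nlinarith [sq_nonneg d.re, sq_nonneg d.im]
    obtain ⟨h3, h4⟩ := ha
    simp [cr, dt, h1, h2] at h3
  have e1 : cr (om * d) b = 1 / 2 * cr d b - √3 / 2 * dt d b := by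
    simp [cr, dt, om_re, om_im]; ring
  have e2 : dt (om * d) b = 1 / 2 * dt d b + √3 / 2 * cr d b := by
    simp [cr, dt, om_re, om_im]; ring
  rw [e1, e2] at hb
  obtain ⟨a1, a2⟩ := ha
  obtain ⟨b1, b2⟩ := hb
  set x := dt d a
  set y := cr d a
  set z := dt d b
  set t := cr d b
  have s3 := sq3
  have hs := sq3_pos
  -- b1: √3(t/2 - √3/2 z) < z/2 + √3/2 t  gives z > 0;  b2 gives z < √3 t
  have hz : 0 < z := by nlinarith
  have ht : z < √3 * t := by nlinarith
  have hx : 0 < x := by linarith
  have htp : 0 < t := by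
    by_contra h
    push Not at h
    nlinarith
  have h3 : 0 < x * t - y * z := by
    by_cases hy : y ≤ 0
    · nlinarith [mul_pos hx htp, mul_nonneg (neg_nonneg.2 hy) hz.le]
    · push Not at hy
      have : √3 * (y * z) < √3 * (x * t) := by
        calc √3 * (y * z) = (√3 * y) * z := by ring
          _ < x * z := by nlinarith
          _ < x * (√3 * t) := by nlinarith
          _ = √3 * (x * t) := by ring
      nlinarith [lt_of_mul_lt_mul_left this hs.le]
  rw [← key] at h3
  by_contra h
  push Not at h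
  nlinarith

theorem sgn0 {d w : ℂ} (h : Turn d w) : 0 < dt d w := by
  unfold Turn at h
  exact lt_of_le_of_lt (mul_nonneg sq3_pos.le (abs_nonneg _)) h

theorem sgn1 {d w : ℂ} (h : Turn (om * d) w) : 0 < dt d w := by
  rw [turn_iff] at h
  have e1 : cr (om * d) w = 1 / 2 * cr d w - √3 / 2 * dt d w := by
    simp [cr, dt, om_re, om_im]; ring
  have e2 : dt (om * d) w = 1 / 2 * dt d w + √3 / 2 * cr d w := by
    simp [cr, dt, om_re, om_im]; ring
  rw [e1, e2] at h
  have s3 := sq3
  nlinarith [h.1, h.2]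

theorem sgn5 {d w : ℂ} (h : Turn (d - om * d) w) : 0 < dt d w := by
  rw [turn_iff] at h
  have e1 : cr (d - om * d) w = 1 / 2 * cr d w + √3 / 2 * dt d w := by
    simp [cr, dt, om_re, om_im]; ring
  have e2 : dt (d - om * d) w = 1 / 2 * dt d w - √3 / 2 * cr d w := by
    simp [cr, dt, om_re, om_im]; ring
  rw [e1, e2] at h
  have s3 := sq3
  nlinarith [h.1, h.2]

theorem sgn3 {d w : ℂ} (h : Turn (-d) w) : dt d w < 0 := by
  have := sgn0 h
  have e : dt (-d) w = -dt d w := by simp [dt]; ring
  rw [e] at this; linarith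

theorem sgn4 {d w : ℂ} (h : Turn (-(om * d)) w) : dt d w < 0 := by
  have h1 : Turn (om * d) (-w) := by
    have := turn_neg h
    rwa [neg_neg] at this
  have := sgn1 h1
  have e : dt d (-w) = -dt d w := by simp [dt]; ring
  rw [e] at this; linarith

theorem sgn2 {d w : ℂ} (h : Turn (om * d - d) w) : dt d w < 0 := by
  have h1 : Turn (d - om * d) (-w) := by
    have := turn_neg h
    rwa [neg_sub] at this
  have := sgn5 h1
  have e : dt d (-w) = -dt d w := by simp [dt]; ring
  rw [e] at this; linarith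

theorem dt_symm (a b : ℂ) : dt a b = dt b a := dt_comm a b

/-- two corners at the same point, given by the directions `k, k+1` and `l, l+1`, are disjoint -/
theorem cones (u x a b a' b' : ℂ) (k l : Fin 6) (hkl : k ≠ l)
    (ha : Turn (Dir u k) (a - x)) (hb : Turn (Dir u (k + 1)) (b - x))
    (ha' : Turn (Dir u l) (a' - x)) (hb' : Turn (Dir u (l + 1)) (b' - x))
    (h1 : l = k + 1 → a' = b) (h2 : k = l + 1 → b' = a) :
    Disjoint (Cone x a b) (Cone x a' b') := by
  rw [Set.disjoint_left]
  rintro p ⟨p1, p2⟩ ⟨p3, p4⟩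
  set d := Dir u k with hd
  have hb0 := hb
  have hb0' := hb'
  rw [Dir_succ] at hb0 hb0'
  have hab : 0 < cr (a - x) (b - x) := cr_next ha hb0
  have hab' : 0 < cr (a' - x) (b' - x) := cr_next ha' hb0'
  have D1 : Dir u (k + 1) = om * d := Dir_succ u k
  have D2 : Dir u (k + 2) = om * d - d := by rw [Dir_two, D1]
  have D3 : Dir u (k + 3) = -d := Dir_three u k
  have D4 : Dir u (k + 4) = -(om * d) := by
    have h : k + 4 = k + 1 + 3 := by rw [add_assoc]; rfl
    rw [h, Dir_three, D1]
  have D5 : Dir u (k + 5) = d - om * d := by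
    have h : k + 5 = k + 2 + 3 := by rw [add_assoc]; rfl
    rw [h, Dir_three, D2]; ring
  have hcases : l = k + 1 ∨ l = k + 2 ∨ l = k + 3 ∨ l = k + 4 ∨ l = k + 5 := by
    revert hkl; clear_value d; clear * -; revert k l; decide
  rcases hcases with h | h | h | h | h
  · rw [h1 h] at p3
    have e : cr (b - x) (p - x) = -cr (p - x) (b - x) := cr_comm _ _
    rw [e] at p3; linarith
  · subst h
    rw [D2] at ha'
    have hk : k + 2 + 1 = k + 3 := by rw [add_assoc]; rfl
    rw [hk, D3] at hb'
    rw [D1] at hb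
    refine sep_dt (f := d) hab hab' ?_ ?_ ?_ ?_ p1 p2 p3 p4
    · rw [dt_symm]; exact sgn0 ha
    · rw [dt_symm]; exact sgn1 hb
    · rw [dt_symm]; exact sgn2 ha'
    · rw [dt_symm]; exact sgn3 hb'
  · subst h
    rw [D3] at ha'
    have hk : k + 3 + 1 = k + 4 := by rw [add_assoc]; rfl
    rw [hk, D4] at hb'
    rw [D1] at hb
    have ef : ∀ w : ℂ, dt w (d + om * d) = dt d w + dt (om * d) w := by
      intro w; simp [dt]; ring
    -- in the frame of `om * d`
    have q1 : Turn (om * d - om * (om * d)) (a - x) := by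
      have e : om * d - om * (om * d) = d := by
        have : om * (om * d) = om ^ 2 * d := by ring
        rw [this, om_sq]; ring
      rw [e]; exact ha
    have q3 : Turn (om * (om * d) - om * d) (a' - x) := by
      have e : om * (om * d) - om * d = -d := by
        have : om * (om * d) = om ^ 2 * d := by ring
        rw [this, om_sq]; ring
      rw [e]; exact ha'
    refine sep_dt (f := d + om * d) hab hab' ?_ ?_ ?_ ?_ p1 p2 p3 p4
    · rw [ef]; have := sgn0 ha; have := sgn5 q1; linarith
    · rw [ef]; have := sgn1 hb; have := sgn0 hb; linarith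
    · rw [ef]; have := sgn3 ha'; have := sgn2 q3; linarith
    · rw [ef]; have := sgn4 hb'; have := sgn3 (d := om * d) hb'; linarith
  · subst h
    rw [D4] at ha'
    have hk : k + 4 + 1 = k + 5 := by rw [add_assoc]; rfl
    rw [hk, D5] at hb'
    rw [D1] at hb
    have q1 : Turn (om * d - om * (om * d)) (a - x) := by
      have e : om * d - om * (om * d) = d := by
        have : om * (om * d) = om ^ 2 * d := by ring
        rw [this, om_sq]; ring
      rw [e]; exact ha
    have q4 : Turn (-(om * (om * d))) (b' - x) := by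
      have e : -(om * (om * d)) = d - om * d := by
        have : om * (om * d) = om ^ 2 * d := by ring
        rw [this, om_sq]; ring
      rw [e]; exact hb'
    refine sep_dt (f := om * d) hab hab' ?_ ?_ ?_ ?_ p1 p2 p3 p4
    · rw [dt_symm]; exact sgn5 q1
    · rw [dt_symm]; exact sgn0 hb
    · rw [dt_symm]; exact sgn3 ha'
    · rw [dt_symm]; exact sgn4 q4
  · have h3 : k = l + 1 := by
      rw [h, add_assoc]
      have : (5 : Fin 6) + 1 = 0 := by decide
      rw [this, add_zero]
    rw [h2 h3] at p4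
    have e : cr (p - x) (a - x) = -cr (a - x) (p - x) := cr_comm _ _
    rw [e] at p4; linarith

end Pool.Agent.H16.T3
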