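import Mathlib

/-!
# EQR: the real inequalities of the equality case
-/

set_option autoImplicit false

namespace Pool.Agent.H16.T3

theorem EQR_s3 : (1.732 : ℝ) ≤ √3 := by
  rw [show (1.732 : ℝ) = √(1.732 ^ 2) by rw [Real.sqrt_sq (by norm_num)]]
  exact Real.sqrt_le_sqrt (by norm_num)

/-- location of a point close to the virtual apex -/
theorem EQR_low {x y : ℝ} (h1 : 1 / 3 ≤ x ^ 2 + y ^ 2) (h2 : x ^ 2 + y ^ 2 ≤ 1 / 3 + 0.0101)
    (q1 : 0.045 * √3 * x + 0.055 * y ≤ 0.0096) (q2 : -(0.045 * √3 * x) + 0.055 * y ≤ 0.0096) :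
    y < 0 ∧ x ≤ 0.42 ∧ -0.42 ≤ x := by
  have hs := EQR_s3
  have q1' : 0 ≤ x → 0.0779 * x + 0.055 * y ≤ 0.0096 := by
    intro hx
    nlinarith [mul_nonneg hx (sub_nonneg.2 hs)]
  have q2' : x ≤ 0 → -(0.0779 * x) + 0.055 * y ≤ 0.0096 := by
    intro hx
    nlinarith [mul_nonneg (neg_nonneg.2 hx) (sub_nonneg.2 hs)]
  have hy : y < 0 := by
    by_contra hy
    push Not at hy
    have hy1 : y ≤ 0.175 := by
      rcases le_total 0 x with h | h
      · have := q1' h; linarith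
      · have := q2' h; linarith
    have hx1 : x ≤ 0.124 := by
      rcases le_total 0 x with h | h
      · have := q1' h; linarith
      · linarith
    have hx2 : -0.124 ≤ x := by
      rcases le_total 0 x with h | h
      · linarith
      · have := q2' h; linarith
    nlinarith
  refine ⟨hy, ?_, ?_⟩
  · by_contra hx
    push Not at hx
    have := q1' (by linarith)
    have hy2 : y ≤ -0.42 := by linarith
    nlinarith
  · by_contra hx
    push Not at hx
    have := q2' (by linarith)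
    have hy2 : y ≤ -0.42 := by linarith
    nlinarith

/-- two such points on different sides are too close -/
theorem EQR_two {x y x' y' : ℝ} (h1 : 1 / 3 ≤ x ^ 2 + y ^ 2) (h2 : x ^ 2 + y ^ 2 ≤ 1 / 3 + 0.0101)
    (h1' : 1 / 3 ≤ x' ^ 2 + y' ^ 2) (h2' : x' ^ 2 + y' ^ 2 ≤ 1 / 3 + 0.0101)
    (hy : y < 0) (hy' : y' < 0) (hx : 0 < x) (hx' : x' < 0) (hX : x ≤ 0.42) (hX' : -0.42 ≤ x') :
    (x - x') ^ 2 + (y - y') ^ 2 < 1 := by
  have a1 : 0.39 ≤ -y := by nlinarith
  have a2 : -y ≤ 0.59 := by nlinarith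
  have b1 : 0.39 ≤ -y' := by nlinarith
  have b2 : -y' ≤ 0.59 := by nlinarith
  have c1 : (x - x') ^ 2 ≤ 0.84 ^ 2 := by nlinarith
  have c2 : (y - y') ^ 2 ≤ 0.2 ^ 2 := by nlinarith
  nlinarith

end Pool.Agent.H16.T3
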