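import Pool.Agent.H16.T3.FAM
import Pool.Agent.H16.T3.EQR
import Pool.Agent.H20.AL.ANG

/-!
# EQ: the equality case (three void apexes with exact frames)

`E k = Dir 1 k`: the six lattice directions of `Lam`.  `Void X a k`: `a` is a virtual apex with exact frames
`a + E k, a + E (k+1), a + E (k+2)`, and no disc of another point of `X` meets the two triangles at `a`.

`eq_same`: three void apexes `a i` of types `0, 2, 4` with pairwise disjoint triangles coincide.
-/

set_option autoImplicit false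

open Set Real MeasureTheory

noncomputable section

namespace Pool.Agent.H16.T3

open Pool.Agent.H20.AL

/-- lattice directions -/
def E (k : Fin 6) : ℂ := Dir 1 k

/-- conjugate rotation -/
def omc : ℂ := ⟨1 / 2, -(√3 / 2)⟩

theorem omc_mul : omc * om = 1 := by
  apply Complex.ext
  · rw [Complex.mul_re]; simp only [omc, om]; rw [Complex.one_re]; nlinarith [sq3]
  · rw [Complex.mul_im]; simp only [omc, om]; rw [Complex.one_im]; ring

theorem E_succ (k : Fin 6) : E (k + 1) = om * E k := Dir_succ 1 k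

theorem E_two (k : Fin 6) : E (k + 2) = om * E (k + 1) := by
  have h : k + 2 = k + 1 + 1 := by rw [add_assoc]; rfl
  rw [h, E_succ]

theorem E_pred (k : Fin 6) : E k = omc * E (k + 1) := by
  rw [E_succ, ← mul_assoc, omc_mul, one_mul]

theorem norm_om : ‖om‖ = 1 := by
  have h : ‖om‖ ^ 2 = 1 := by rw [nsq, om_nsq]
  have h2 := norm_nonneg om
  nlinarith

theorem norm_E (k : Fin 6) : ‖E k‖ = 1 := by
  unfold E Dir
  rw [norm_mul, norm_pow, norm_om]; simp

theorem E_nsq (k : Fin 6) : (E k).re ^ 2 + (E k).im ^ 2 = 1 := by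
  rw [← nsq, norm_E]; norm_num

theorem cr_E (k : Fin 6) : cr (E k) (E (k + 1)) = √3 / 2 := by
  rw [E_succ]
  have h : cr (E k) (om * E k) = √3 / 2 * ((E k).re ^ 2 + (E k).im ^ 2) := by
    simp [cr, om_re, om_im]; ring
  rw [h, E_nsq]; ring

theorem dt_E (k : Fin 6) : dt (E k) (E (k + 1)) = 1 / 2 := by
  rw [E_succ]
  have h : dt (E k) (om * E k) = 1 / 2 * ((E k).re ^ 2 + (E k).im ^ 2) := by
    simp [dt, om_re, om_im]; ring
  rw [h, E_nsq]; ring

/-- void apex -/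
structure Void (X : Set ℂ) (a : ℂ) (k : Fin 6) : Prop where
  fr0 : a + E k ∈ X
  fr1 : a + E (k + 1) ∈ X
  fr2 : a + E (k + 2) ∈ X
  na : a ∉ X
  m1 : ∀ y ∈ X, y ≠ a + E k → y ≠ a + E (k + 1) → y ≠ a + E (k + 2) →
    Disjoint (D y) (Tri a (a + E k) (a + E (k + 1)))
  m2 : ∀ y ∈ X, y ≠ a + E k → y ≠ a + E (k + 1) → y ≠ a + E (k + 2) →
    Disjoint (D y) (Tri a (a + E (k + 1)) (a + E (k + 2)))

theorem r3 : (1 / √3 : ℝ) ^ 2 = 1 / 3 := by
  rw [div_pow, one_pow, Real.sq_sqrt (by norm_num)]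

theorem r3_pos : (0 : ℝ) < 1 / √3 := by positivity

/-- a point outside a disc -/
theorem nD {y q : ℂ} (h : q ∉ D y) : 1 / 3 ≤ ‖q - y‖ ^ 2 := by
  rw [mem_D, not_lt] at h
  rw [← r3]
  exact pow_le_pow_left₀ r3_pos.le h 2

/-- the point `a + α E k + β E (k+1)` is in the first triangle -/
theorem in_tri {a : ℂ} {k : Fin 6} {α β : ℝ} (hα : 0 < α) (hβ : 0 < β) (h : α + β < 1) :
    a + α * E k + β * E (k + 1) ∈ Tri a (a + E k) (a + E (k + 1)) := by
  have hc := cr_E k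
  have s := sq3_pos
  refine ⟨?_, ?_, ?_⟩
  · have e : cr (a + E k - a) (a + α * E k + β * E (k + 1) - a) = β * cr (E k) (E (k + 1)) := by
      simp [cr]; ring
    rw [e, hc]; positivity
  · have e : cr (a + E (k + 1) - (a + E k)) (a + α * E k + β * E (k + 1) - (a + E k)) =
        (1 - α - β) * cr (E k) (E (k + 1)) := by
      simp [cr]; ring
    rw [e, hc]; have : 0 < 1 - α - β := by linarith
    positivity
  · have e : cr (a - (a + E (k + 1))) (a + α * E k + β * E (k + 1) - (a + E (k + 1))) =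
        α * cr (E k) (E (k + 1)) := by
      simp [cr]; ring
    rw [e, hc]; positivity

/-- points of the packing are not close to a void apex -/
theorem Void.far {X : Set ℂ} {a : ℂ} {k : Fin 6} (h : Void X a k) {y : ℂ} (hy : y ∈ X) :
    1 / 3 ≤ ‖y - a‖ ^ 2 := by
  by_cases h0 : y = a + E k
  · rw [h0, add_sub_cancel_left, norm_E]; norm_num
  by_cases h1 : y = a + E (k + 1)
  · rw [h1, add_sub_cancel_left, norm_E]; norm_num
  by_cases h2 : y = a + E (k + 2)
  · rw [h2, add_sub_cancel_left, norm_E]; norm_num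
  by_contra hcon
  push Not at hcon
  have hlt : ‖y - a‖ < 1 / √3 := by
    rw [← r3] at hcon
    exact lt_of_pow_lt_pow_left₀ 2 r3_pos.le hcon
  set t : ℝ := min (1 / 3) ((1 / √3 - ‖y - a‖) / 3) with ht
  have ht0 : 0 < t := by
    rw [ht]; exact lt_min (by norm_num) (by linarith)
  have ht1 : t ≤ 1 / 3 := min_le_left _ _
  have ht2 : t ≤ (1 / √3 - ‖y - a‖) / 3 := min_le_right _ _
  have hin := in_tri (a := a) (k := k) ht0 ht0 (by linarith)
  have hd := h.m1 y hy h0 h1 h2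
  refine Set.disjoint_left.1 hd ?_ hin
  rw [mem_D]
  have e : a + t * E k + t * E (k + 1) - y = (a - y) + (t * E k + t * E (k + 1)) := by ring
  rw [e]
  have n1 : ‖(t : ℂ) * E k + t * E (k + 1)‖ ≤ 2 * t := by
    refine (norm_add_le _ _).trans ?_
    rw [norm_mul, norm_mul, norm_E, norm_E, Complex.norm_real, Real.norm_of_nonneg ht0.le]; linarith
  have n2 := norm_add_le (a - y) ((t : ℂ) * E k + t * E (k + 1))
  rw [norm_sub_rev] at n2
  linarith

theorem dt_sm (v : ℂ) (α β : ℝ) (p q : ℂ) : dt v (α * p + β * q) = α * dt v p + β * dt v q := by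
  simp [dt]; ring

/-- coordinates of `y - a` with respect to the axis `E (k+1)` -/
theorem Void.low {X : Set ℂ} {a : ℂ} {k : Fin 6} (h : Void X a k) {y : ℂ} (hy : y ∈ X)
    (h0 : y ≠ a + E k) (h1 : y ≠ a + E (k + 1)) (h2 : y ≠ a + E (k + 2))
    (hn : ‖y - a‖ ^ 2 ≤ 1 / 3 + 0.0101) :
    dt (y - a) (E (k + 1)) < 0 ∧ cr (y - a) (E (k + 1)) ≤ 0.42 ∧ -0.42 ≤ cr (y - a) (E (k + 1)) ∧
    cr (y - a) (E (k + 1)) ^ 2 + dt (y - a) (E (k + 1)) ^ 2 = ‖y - a‖ ^ 2 := by
  have hl : cr (y - a) (E (k + 1)) ^ 2 + dt (y - a) (E (k + 1)) ^ 2 = ‖y - a‖ ^ 2 := by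
    have := lag (y - a) (E (k + 1))
    rw [norm_E] at this; linarith
  have hfar := h.far hy
  have q1 : a + (0.09 : ℝ) * E k + (0.01 : ℝ) * E (k + 1) ∉ D y := fun hq =>
    Set.disjoint_left.1 (h.m1 y hy h0 h1 h2) hq (in_tri (by norm_num) (by norm_num) (by norm_num))
  have q2 : a + (0.01 : ℝ) * E (k + 1) + (0.09 : ℝ) * E (k + 1 + 1) ∉ D y := fun hq =>
    Set.disjoint_left.1 (h.m2 y hy h0 h1 h2) hq (by
      have h3 : k + 2 = k + 1 + 1 := by rw [add_assoc]; rfl
      rw [h3]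
      exact in_tri (by norm_num) (by norm_num) (by norm_num))
  have q1' := nD q1
  have q2' := nD q2
  set e := E (k + 1) with he
  have ek : E k = omc * e := E_pred k
  have ek2 : E (k + 1 + 1) = om * e := E_succ (k + 1)
  have hee : e.re ^ 2 + e.im ^ 2 = 1 := E_nsq (k + 1)
  have s3 := sq3
  have f1 : ‖a + (0.09 : ℝ) * E k + (0.01 : ℝ) * e - y‖ ^ 2 =
      ‖y - a‖ ^ 2 - 2 * (0.045 * √3 * cr (y - a) e + 0.055 * dt (y - a) e) + 0.0091 * (e.re ^ 2 + e.im ^ 2) := by
    rw [nsq, nsq, ek]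
    simp [omc, cr, dt]
    linear_combination (0.002025 * (e.re ^ 2 + e.im ^ 2)) * s3
  have f2 : ‖a + (0.01 : ℝ) * e + (0.09 : ℝ) * E (k + 1 + 1) - y‖ ^ 2 =
      ‖y - a‖ ^ 2 - 2 * (-(0.045 * √3 * cr (y - a) e) + 0.055 * dt (y - a) e) + 0.0091 * (e.re ^ 2 + e.im ^ 2) := by
    rw [nsq, nsq, ek2]
    simp [om, cr, dt]
    linear_combination (0.002025 * (e.re ^ 2 + e.im ^ 2)) * s3
  rw [f1, hee] at q1'
  rw [f2, hee] at q2'
  obtain ⟨g1, g2, g3⟩ := EQR_low (x := cr (y - a) e) (y := dt (y - a) e) (by rw [hl]; exact hfar)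
    (by rw [hl]; exact hn) (by linarith) (by linarith)
  exact ⟨g1, g2, g3, hl⟩

end Pool.Agent.H16.T3
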