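import Pool.Agent.H16.T3.EQ

/-!
# EQB: the extra virtual triangle at a void apex
-/

set_option autoImplicit false

open Set Real MeasureTheory

noncomputable section

namespace Pool.Agent.H16.T3

open Pool.Agent.H20.AL

/-- barycentric coordinates -/
theorem decomp {a u v p : ℂ} (h : 0 < cr u v) (hp : p ∈ Tri a (a + u) (a + v)) :
    ∃ α β : ℝ, 0 < α ∧ 0 < β ∧ α + β < 1 ∧ p - a = α * u + β * v := by
  obtain ⟨h1, h2, h3⟩ := hp
  have e1 : cr (a + u - a) (p - a) = cr u (p - a) := by rw [add_sub_cancel_left]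
  have e3 : cr (a - (a + v)) (p - (a + v)) = cr (p - a) v := by simp [cr]; ring
  have e2 : cr (a + v - (a + u)) (p - (a + u)) = cr u v - cr u (p - a) - cr (p - a) v := by
    simp [cr]; ring
  rw [e1] at h1
  rw [e2] at h2
  rw [e3] at h3
  refine ⟨cr (p - a) v / cr u v, cr u (p - a) / cr u v, by positivity, by positivity, ?_, ?_⟩
  · rw [← add_div, div_lt_one h]; linarith
  · have hc : (cr u v : ℂ) ≠ 0 := Complex.ofReal_ne_zero.2 h.ne'
    have key : (cr u v : ℂ) * (p - a) = (cr (p - a) v : ℂ) * u + (cr u (p - a) : ℂ) * v := by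
      apply Complex.ext <;> simp [cr] <;> ring
    calc p - a = ((cr u v : ℂ) * (p - a)) / (cr u v : ℂ) := by field_simp
      _ = ((cr (p - a) v : ℂ) * u + (cr u (p - a) : ℂ) * v) / (cr u v : ℂ) := by rw [key]
      _ = _ := by push_cast; ring

theorem comp {α β : ℝ} {u v : ℂ} (f : ℂ) : cr (α * u + β * v) f = α * cr u f + β * cr v f := by
  simp [cr]; ring

theorem comp' {α β : ℝ} {u v : ℂ} (f : ℂ) : cr f (α * u + β * v) = α * cr f u + β * cr f v := by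
  simp [cr]; ring

theorem compd {α β : ℝ} {u v : ℂ} (f : ℂ) : dt (α * u + β * v) f = α * dt u f + β * dt v f := by
  simp [dt]; ring

theorem E_two_sub (k : Fin 6) : E (k + 2) = E (k + 1) - E k := Dir_two 1 k

theorem cr_E2 (k : Fin 6) : cr (E k) (E (k + 2)) = √3 / 2 := by
  rw [E_two_sub, ← cr_E k]
  simp [cr]; ring

theorem cr_E21 (k : Fin 6) : cr (E (k + 2)) (E (k + 1)) = -(√3 / 2) := by
  rw [cr_comm, ← cr_E (k + 1)]
  have h : k + 2 = k + 1 + 1 := by rw [add_assoc]; rfl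
  rw [h]

theorem dt_E21 (k : Fin 6) : dt (E (k + 2)) (E (k + 1)) = 1 / 2 := by
  rw [dt_comm, ← dt_E (k + 1)]
  have h : k + 2 = k + 1 + 1 := by rw [add_assoc]; rfl
  rw [h]

/-- right vector of the extra triangle on the right -/
def gR (k : Fin 6) : ℂ := E k - E (k + 2)

/-- the extra triangle on the right of the two triangles at `a` -/
def TR (a : ℂ) (k : Fin 6) : Fin 3 → ℂ := ![a, a + (1 / 200 : ℝ) * gR k, a + (1 / 200 : ℝ) * E k]

/-- the extra triangle on the left -/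
def TL (a : ℂ) (k : Fin 6) : Fin 3 → ℂ := ![a, a + (1 / 200 : ℝ) * E (k + 2), a + (1 / 200 : ℝ) * (-gR k)]

theorem gR_cr (k : Fin 6) : cr (gR k) (E (k + 1)) = √3 := by
  have : cr (gR k) (E (k + 1)) = cr (E k) (E (k + 1)) - cr (E (k + 2)) (E (k + 1)) := by
    simp [gR, cr]; ring
  rw [this, cr_E, cr_E21]; ring

theorem gR_dt (k : Fin 6) : dt (gR k) (E (k + 1)) = 0 := by
  have : dt (gR k) (E (k + 1)) = dt (E k) (E (k + 1)) - dt (E (k + 2)) (E (k + 1)) := by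
    simp [gR, dt]; ring
  rw [this, dt_E, dt_E21]; ring

theorem gR_E (k : Fin 6) : cr (gR k) (E k) = √3 / 2 := by
  have : cr (gR k) (E k) = cr (E k) (E (k + 2)) := by
    simp [gR, cr]; ring
  rw [this, cr_E2]

theorem E2_gR (k : Fin 6) : cr (E (k + 2)) (-gR k) = √3 / 2 := by
  have : cr (E (k + 2)) (-gR k) = cr (E k) (E (k + 2)) := by
    simp [gR, cr]; ring
  rw [this, cr_E2]

theorem TR_pos (a : ℂ) (k : Fin 6) : 0 < A3 (TR a k) := by
  have h : A3 (TR a k) = (1 / 200) ^ 2 * cr (gR k) (E k) := by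
    simp [A3, TR, cr]; ring
  rw [h, gR_E]; have := sq3_pos; positivity

theorem TL_pos (a : ℂ) (k : Fin 6) : 0 < A3 (TL a k) := by
  have h : A3 (TL a k) = (1 / 200) ^ 2 * cr (E (k + 2)) (-gR k) := by
    simp [A3, TL, cr]; ring
  rw [h, E2_gR]; have := sq3_pos; positivity

theorem sm_cr (c : ℝ) (u v : ℂ) : cr ((c : ℂ) * u) ((c : ℂ) * v) = c ^ 2 * cr u v := by
  simp [cr]; ring

/-- coordinates of a point of `TR` -/
theorem TR_mem {a p : ℂ} {k : Fin 6} (hp : p ∈ T3 (TR a k)) :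
    0 < cr (p - a) (E (k + 1)) ∧ 0 ≤ dt (p - a) (E (k + 1)) ∧ cr (E k) (p - a) < 0 ∧
    ‖p - a‖ ^ 2 ≤ 3 * (1 / 200) ^ 2 := by
  have s := sq3_pos
  have s3 := sq3
  have hpos : 0 < cr ((1 / 200 : ℝ) * gR k) ((1 / 200 : ℝ) * E k) := by
    rw [sm_cr, gR_E]; positivity
  obtain ⟨α, β, hα, hβ, hαβ, e⟩ := decomp hpos hp
  have e0 : p - a = α * (((1 / 200 : ℝ) : ℂ) * gR k) + β * (((1 / 200 : ℝ) : ℂ) * E k) := e
  have e' : p - a = ((α * (1 / 200) : ℝ) : ℂ) * gR k + ((β * (1 / 200) : ℝ) : ℂ) * E k := by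
    rw [e0]; push_cast; ring
  have c1 : cr (p - a) (E (k + 1)) = α * (1 / 200) * √3 + β * (1 / 200) * (√3 / 2) := by
    rw [e', comp, gR_cr, cr_E]
  have c2 : dt (p - a) (E (k + 1)) = β * (1 / 200) * (1 / 2) := by
    rw [e', compd, gR_dt, dt_E]; ring
  have c3 : cr (E k) (p - a) = -(α * (1 / 200) * (√3 / 2)) := by
    rw [e', comp', cr_self, cr_comm, gR_E]; ring
  refine ⟨by rw [c1]; positivity, by rw [c2]; positivity, by rw [c3]; exact neg_neg_of_pos (by positivity), ?_⟩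
  have hl := lag (p - a) (E (k + 1))
  rw [norm_E] at hl
  have : ‖p - a‖ ^ 2 = dt (p - a) (E (k + 1)) ^ 2 + cr (p - a) (E (k + 1)) ^ 2 := by linarith
  rw [this, c1, c2]
  have h2 : (α * (1 / 200) * √3 + β * (1 / 200) * (√3 / 2)) ^ 2 =
      (1 / 200) ^ 2 * (α + β / 2) ^ 2 * (√3 * √3) := by ring
  rw [h2, s3]
  nlinarith [mul_pos hα hβ]

theorem TL_mem {a p : ℂ} {k : Fin 6} (hp : p ∈ T3 (TL a k)) :
    cr (p - a) (E (k + 1)) < 0 ∧ 0 ≤ dt (p - a) (E (k + 1)) ∧ 0 < cr (E (k + 2)) (p - a) ∧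
    ‖p - a‖ ^ 2 ≤ 3 * (1 / 200) ^ 2 := by
  have s := sq3_pos
  have s3 := sq3
  have hpos : 0 < cr ((1 / 200 : ℝ) * E (k + 2)) ((1 / 200 : ℝ) * (-gR k)) := by
    rw [sm_cr, E2_gR]; positivity
  obtain ⟨α, β, hα, hβ, hαβ, e⟩ := decomp hpos hp
  have e0 : p - a = α * (((1 / 200 : ℝ) : ℂ) * E (k + 2)) + β * (((1 / 200 : ℝ) : ℂ) * (-gR k)) := e
  have e' : p - a = ((α * (1 / 200) : ℝ) : ℂ) * E (k + 2) + ((-(β * (1 / 200)) : ℝ) : ℂ) * gR k := by
    rw [e0]; push_cast; ring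
  have c1 : cr (p - a) (E (k + 1)) = -(α * (1 / 200) * (√3 / 2) + β * (1 / 200) * √3) := by
    rw [e', comp, gR_cr, cr_E21]; ring
  have c2 : dt (p - a) (E (k + 1)) = α * (1 / 200) * (1 / 2) := by
    rw [e', compd, gR_dt, dt_E21]; ring
  have c3 : cr (E (k + 2)) (p - a) = β * (1 / 200) * (√3 / 2) := by
    have h := E2_gR k
    have h2 : cr (E (k + 2)) (gR k) = -(√3 / 2) := by
      have : cr (E (k + 2)) (-gR k) = -cr (E (k + 2)) (gR k) := by simp [cr]; ring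
      linarith
    rw [e', comp', cr_self, h2]; ring
  refine ⟨by rw [c1]; exact neg_neg_of_pos (by positivity), by rw [c2]; positivity, by rw [c3]; positivity, ?_⟩
  have hl := lag (p - a) (E (k + 1))
  rw [norm_E] at hl
  have : ‖p - a‖ ^ 2 = dt (p - a) (E (k + 1)) ^ 2 + cr (p - a) (E (k + 1)) ^ 2 := by linarith
  rw [this, c1, c2]
  have h2 : (-(α * (1 / 200) * (√3 / 2) + β * (1 / 200) * √3)) ^ 2 =
      (1 / 200) ^ 2 * (α / 2 + β) ^ 2 * (√3 * √3) := by ring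
  rw [h2, s3]
  nlinarith [mul_pos hα hβ]

/-- a disc with centre at distance at least one does not reach the extra triangles -/
theorem far_small {a y p : ℂ} (h1 : 1 ≤ ‖y - a‖) (hp : ‖p - a‖ ^ 2 ≤ 3 * (1 / 200) ^ 2) : p ∉ D y := by
  intro hD
  rw [mem_D] at hD
  have h2 : ‖p - a‖ ≤ 1 / 100 := by
    have := norm_nonneg (p - a)
    nlinarith
  have h3 : ‖y - a‖ ≤ ‖p - a‖ + ‖p - y‖ := by
    have := norm_sub_le (p - a) (p - y)
    have e : p - a - (p - y) = y - a := by ring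
    rwa [e] at this
  have h4 : 1 / √3 < 0.6 := by
    rw [div_lt_iff₀ sq3_pos]
    have := EQR_s3
    linarith
  linarith

/-- scalar product in the frame of a unit vector -/
theorem dt_frame (v w : ℂ) (k : Fin 6) :
    dt v w = cr v (E k) * cr w (E k) + dt v (E k) * dt w (E k) := by
  have h := E_nsq k
  have : cr v (E k) * cr w (E k) + dt v (E k) * dt w (E k) = dt v w * ((E k).re ^ 2 + (E k).im ^ 2) := by
    simp [cr, dt]; ring
  rw [this, h, mul_one]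

theorem near_bound {a y p : ℂ} (hD : p ∈ D y) (hp : ‖p - a‖ ^ 2 ≤ 3 * (1 / 200) ^ 2) :
    ‖y - a‖ ^ 2 ≤ 1 / 3 + 0.0101 := by
  have h1 : ‖p - y‖ ^ 2 < 1 / 3 := by
    rw [mem_D] at hD
    rw [← r3]
    exact pow_lt_pow_left₀ hD (norm_nonneg _) (by norm_num)
  -- |y-a|^2 ≤ (1+t)|p-y|^2 + (1+1/t)|p-a|^2 with t = 3/200 * ... : use dt^2 ≤
  have e : ‖y - a‖ ^ 2 = ‖p - y‖ ^ 2 - 2 * dt (p - y) (p - a) + ‖p - a‖ ^ 2 := by
    rw [nsq, nsq, nsq]; simp [dt]; ring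
  have hl := lag (p - y) (p - a)
  have hd2 : dt (p - y) (p - a) ^ 2 ≤ (1 / 200) ^ 2 := by
    have h0 := sq_nonneg (cr (p - y) (p - a))
    have h2 : ‖p - y‖ ^ 2 * ‖p - a‖ ^ 2 ≤ 1 / 3 * (3 * (1 / 200) ^ 2) :=
      mul_le_mul h1.le hp (by positivity) (by norm_num)
    linarith
  have hd : -(1 / 200) ≤ dt (p - y) (p - a) := by
    by_contra hcon
    push Not at hcon
    nlinarith
  rw [e]
  linarith

theorem Void.hitR {X : Set ℂ} {a : ℂ} {k : Fin 6} (h : Void X a k) {y : ℂ} (hy : y ∈ X)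
    (hR : ¬ Disjoint (D y) (T3 (TR a k))) :
    1 / 3 ≤ ‖y - a‖ ^ 2 ∧ ‖y - a‖ ^ 2 ≤ 1 / 3 + 0.0101 ∧ dt (y - a) (E (k + 1)) < 0 ∧
    0 < cr (y - a) (E (k + 1)) ∧ cr (y - a) (E (k + 1)) ≤ 0.42 ∧
    cr (y - a) (E (k + 1)) ^ 2 + dt (y - a) (E (k + 1)) ^ 2 = ‖y - a‖ ^ 2 := by
  rw [Set.not_disjoint_iff] at hR
  obtain ⟨p, hpD, hpT⟩ := hR
  obtain ⟨p1, p2, -, p4⟩ := TR_mem hpT
  have h0 : y ≠ a + E k := by
    rintro rfl
    exact far_small (a := a) (by rw [add_sub_cancel_left, norm_E]) p4 hpD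
  have h1 : y ≠ a + E (k + 1) := by
    rintro rfl
    exact far_small (a := a) (by rw [add_sub_cancel_left, norm_E]) p4 hpD
  have h2 : y ≠ a + E (k + 2) := by
    rintro rfl
    exact far_small (a := a) (by rw [add_sub_cancel_left, norm_E]) p4 hpD
  have hfar := h.far hy
  have hn := near_bound hpD p4
  obtain ⟨g1, g2, -, g4⟩ := h.low hy h0 h1 h2 hn
  refine ⟨hfar, hn, g1, ?_, g2, g4⟩
  -- scalar product positive
  have hlt : ‖p - y‖ ^ 2 < 1 / 3 := by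
    rw [mem_D] at hpD
    rw [← r3]
    exact pow_lt_pow_left₀ hpD (norm_nonneg _) (by norm_num)
  have e : ‖p - y‖ ^ 2 = ‖y - a‖ ^ 2 - 2 * dt (y - a) (p - a) + ‖p - a‖ ^ 2 := by
    rw [nsq, nsq, nsq]; simp [dt]; ring
  have hd : 0 < dt (y - a) (p - a) := by
    have := sq_nonneg ‖p - a‖
    linarith
  rw [dt_frame _ _ (k + 1)] at hd
  by_contra hcon
  push Not at hcon
  nlinarith [mul_nonneg (neg_nonneg.2 hcon) p1.le, mul_nonneg (neg_nonneg.2 g1.le) p2]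

theorem Void.hitL {X : Set ℂ} {a : ℂ} {k : Fin 6} (h : Void X a k) {y : ℂ} (hy : y ∈ X)
    (hL : ¬ Disjoint (D y) (T3 (TL a k))) :
    1 / 3 ≤ ‖y - a‖ ^ 2 ∧ ‖y - a‖ ^ 2 ≤ 1 / 3 + 0.0101 ∧ dt (y - a) (E (k + 1)) < 0 ∧
    cr (y - a) (E (k + 1)) < 0 ∧ -0.42 ≤ cr (y - a) (E (k + 1)) ∧
    cr (y - a) (E (k + 1)) ^ 2 + dt (y - a) (E (k + 1)) ^ 2 = ‖y - a‖ ^ 2 := by
  rw [Set.not_disjoint_iff] at hL
  obtain ⟨p, hpD, hpT⟩ := hL
  obtain ⟨p1, p2, -, p4⟩ := TL_mem hpT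
  have h0 : y ≠ a + E k := by
    rintro rfl
    exact far_small (a := a) (by rw [add_sub_cancel_left, norm_E]) p4 hpD
  have h1 : y ≠ a + E (k + 1) := by
    rintro rfl
    exact far_small (a := a) (by rw [add_sub_cancel_left, norm_E]) p4 hpD
  have h2 : y ≠ a + E (k + 2) := by
    rintro rfl
    exact far_small (a := a) (by rw [add_sub_cancel_left, norm_E]) p4 hpD
  have hfar := h.far hy
  have hn := near_bound hpD p4
  obtain ⟨g1, -, g3, g4⟩ := h.low hy h0 h1 h2 hn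
  refine ⟨hfar, hn, g1, ?_, g3, g4⟩
  have hlt : ‖p - y‖ ^ 2 < 1 / 3 := by
    rw [mem_D] at hpD
    rw [← r3]
    exact pow_lt_pow_left₀ hpD (norm_nonneg _) (by norm_num)
  have e : ‖p - y‖ ^ 2 = ‖y - a‖ ^ 2 - 2 * dt (y - a) (p - a) + ‖p - a‖ ^ 2 := by
    rw [nsq, nsq, nsq]; simp [dt]; ring
  have hd : 0 < dt (y - a) (p - a) := by
    have := sq_nonneg ‖p - a‖
    linarith
  rw [dt_frame _ _ (k + 1)] at hd
  by_contra hcon
  push Not at hcon
  nlinarith [mul_nonneg hcon (neg_nonneg.2 p1.le), mul_nonneg (neg_nonneg.2 g1.le) p2]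

/-- one of the two extra triangles is not met by any disc -/
theorem Void.extra {X : Set ℂ} (hX : Sep X) {a : ℂ} {k : Fin 6} (h : Void X a k) :
    (∀ y ∈ X, Disjoint (D y) (T3 (TR a k))) ∨ (∀ y ∈ X, Disjoint (D y) (T3 (TL a k))) := by
  by_contra hcon
  push Not at hcon
  obtain ⟨⟨y, hy, hR⟩, ⟨y', hy', hL⟩⟩ := hcon
  obtain ⟨a1, a2, a3, a4, a5, a6⟩ := h.hitR hy hR
  obtain ⟨b1, b2, b3, b4, b5, b6⟩ := h.hitL hy' hL
  have hne : y ≠ y' := by
    rintro rfl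
    linarith
  have h1 := hX y hy y' hy' hne
  have h2 := EQR_two (x := cr (y - a) (E (k + 1))) (y := dt (y - a) (E (k + 1)))
    (x' := cr (y' - a) (E (k + 1))) (y' := dt (y' - a) (E (k + 1)))
    (by rw [a6]; exact a1) (by rw [a6]; exact a2) (by rw [b6]; exact b1) (by rw [b6]; exact b2)
    a3 b3 a4 b4 a5 b5
  have e : (cr (y - a) (E (k + 1)) - cr (y' - a) (E (k + 1))) ^ 2 +
      (dt (y - a) (E (k + 1)) - dt (y' - a) (E (k + 1))) ^ 2 = dist y y' ^ 2 := by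
    have hl := lag (y - y') (E (k + 1))
    rw [norm_E] at hl
    have e1 : cr (y - a) (E (k + 1)) - cr (y' - a) (E (k + 1)) = cr (y - y') (E (k + 1)) := by
      simp [cr]; ring
    have e2 : dt (y - a) (E (k + 1)) - dt (y' - a) (E (k + 1)) = dt (y - y') (E (k + 1)) := by
      simp [dt]; ring
    rw [e1, e2, dist_eq_norm]; linarith
  rw [e] at h2
  nlinarith

end Pool.Agent.H16.T3
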