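import Pool.Agent.H16.T3.EQB
import Pool.Agent.H20.AL.HXA

/-!
# EQC: three void apexes with exact frames coincide; the packing is the lattice minus one point
-/

set_option autoImplicit false

open Set Real MeasureTheory

noncomputable section

namespace Pool.Agent.H16.T3

open Pool.Agent.H20.AL

/-- types of the three wedges -/
def kk (i : Fin 3) : Fin 6 := ![0, 2, 4] i

/-- the two types of triangles at the apex of the wedge `i` -/
def kb (i : Fin 3) (b : Bool) : Fin 6 := if b then kk i + 1 else kk i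

/-- lattice triangle at `a` with directions `k, k+1` -/
def VT (a : ℂ) (k : Fin 6) : Fin 3 → ℂ := ![a, a + E k, a + E (k + 1)]

theorem VT_A3 (a : ℂ) (k : Fin 6) : A3 (VT a k) = √3 / 2 := by
  have : A3 (VT a k) = cr (E k) (E (k + 1)) := by simp [A3, VT]
  rw [this, cr_E]

theorem E_sub (k : Fin 6) : E (k + 1) - E k = E (k + 2) := (E_two_sub k).symm

theorem free_void {X : Set ℂ} (hX : Sep X) {a x : ℂ} (hx : x ∈ X) (hax : ‖a - x‖ = 1)
    (hfar : ∀ y ∈ X, 1 / 3 ≤ ‖y - a‖ ^ 2) : Free X x a := by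
  intro y hy hyx h
  exfalso
  have h1 : 1 ≤ ‖y - x‖ := by have := hX y hy x hx hyx; rwa [dist_eq_norm] at this
  have h2 := hfar y hy
  have e : ‖y - a‖ ^ 2 = ‖y - x‖ ^ 2 - 2 * dt (a - x) (y - x) + ‖a - x‖ ^ 2 := by
    rw [nsq, nsq, nsq]; simp [dt]; ring
  rw [hax] at h e
  have hs := EQR_s3
  have h3 : 1 ≤ ‖y - x‖ ^ 2 := by nlinarith
  nlinarith

theorem arccos_half : Real.arccos (1 / 2 / (1 * 1)) = π / 3 := by
  rw [show (1 / 2 / (1 * 1) : ℝ) = Real.cos (π / 3) by rw [Real.cos_pi_div_three]; norm_num]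
  exact Real.arccos_cos (by positivity) (by linarith [Real.pi_pos])

theorem VT_c1 (a : ℂ) (k : Fin 6) : volume.real (K3 (VT a k) 1 ∩ D (VT a k 1)) = π / 18 := by
  change volume.real (Cone (a + E k) (a + E (k + 1)) a ∩ D (a + E k)) = π / 18
  have e1 : a + E (k + 1) - (a + E k) = E (k + 2) := by rw [← E_sub]; ring
  have e2 : a - (a + E k) = -E k := by ring
  have hc : 0 < cr (a + E (k + 1) - (a + E k)) (a - (a + E k)) := by
    rw [e1, e2]
    have : cr (E (k + 2)) (-E k) = cr (E k) (E (k + 2)) := by simp [cr]; ring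
    rw [this, cr_E2]; have := sq3_pos; positivity
  rw [ang hc, e1, e2, norm_E, norm_neg, norm_E]
  have hd : dt (E (k + 2)) (-E k) = 1 / 2 := by
    have h1 : dt (E (k + 2)) (-E k) = dt (E k) (E k) - dt (E k) (E (k + 1)) := by
      rw [E_two_sub]; simp [dt]; ring
    rw [h1, dt_E, dt_self, norm_E]; norm_num
  rw [hd, arccos_half]; ring

theorem VT_c2 (a : ℂ) (k : Fin 6) : volume.real (K3 (VT a k) 2 ∩ D (VT a k 2)) = π / 18 := by
  change volume.real (Cone (a + E (k + 1)) a (a + E k) ∩ D (a + E (k + 1))) = π / 18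
  have e1 : a + E k - (a + E (k + 1)) = -E (k + 2) := by rw [← E_sub]; ring
  have e2 : a - (a + E (k + 1)) = -E (k + 1) := by ring
  have hc : 0 < cr (a - (a + E (k + 1))) (a + E k - (a + E (k + 1))) := by
    rw [e1, e2]
    have : cr (-E (k + 1)) (-E (k + 2)) = -cr (E (k + 2)) (E (k + 1)) := by simp [cr]; ring
    rw [this, cr_E21]; have := sq3_pos; simp
  rw [ang hc, e1, e2, norm_neg, norm_E, norm_neg, norm_E]
  have hd : dt (-E (k + 1)) (-E (k + 2)) = 1 / 2 := by
    have h1 : dt (-E (k + 1)) (-E (k + 2)) = dt (E (k + 2)) (E (k + 1)) := by simp [dt]; ring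
    rw [h1, dt_E21]
  rw [hd, arccos_half]; ring

theorem VT_pos (a : ℂ) (k : Fin 6) : 0 < cr (a + E k - a) (a + E (k + 1) - a) := by
  rw [add_sub_cancel_left, add_sub_cancel_left, cr_E]; have := sq3_pos; positivity

/-- a disc with centre at distance at least one from the vertices of a lattice triangle misses it -/
theorem VT_miss {a y : ℂ} {k : Fin 6} (h0 : 1 ≤ dist y a) (h1 : 1 ≤ dist y (a + E k))
    (h2 : 1 ≤ dist y (a + E (k + 1))) : Disjoint (D y) (T3 (VT a k)) := by
  refine disc_tri (VT_pos a k) ?_ ?_ ?_ h0 h1 h2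
  · have : dist a (a + E k) = 1 := by rw [dist_comm, dist_eq_norm, add_sub_cancel_left, norm_E]
    change dist a (a + E k) ^ 2 ≤ 8 / 3
    rw [this]; norm_num
  · have : dist (a + E k) (a + E (k + 1)) = 1 := by
      rw [dist_comm, dist_eq_norm]
      have : a + E (k + 1) - (a + E k) = E (k + 2) := by rw [← E_sub]; ring
      rw [this, norm_E]
    change dist (a + E k) (a + E (k + 1)) ^ 2 ≤ 8 / 3
    rw [this]; norm_num
  · have : dist (a + E (k + 1)) a = 1 := by rw [dist_eq_norm, add_sub_cancel_left, norm_E]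
    change dist (a + E (k + 1)) a ^ 2 ≤ 8 / 3
    rw [this]; norm_num

theorem Void.missF {X : Set ℂ} (hX : Sep X) {a : ℂ} {k : Fin 6} (h : Void X a k) {y : ℂ} (hy : y ∈ X)
    (h0 : y ≠ a + E k) (h1 : y ≠ a + E (k + 1)) : Disjoint (D y) (T3 (VT a k)) := by
  by_cases h2 : y = a + E (k + 2)
  · refine VT_miss ?_ (hX y hy _ h.fr0 h0) (hX y hy _ h.fr1 h1)
    rw [h2, dist_eq_norm, add_sub_cancel_left, norm_E]
  · exact h.m1 y hy h0 h1 h2

theorem Void.missT {X : Set ℂ} (hX : Sep X) {a : ℂ} {k : Fin 6} (h : Void X a k) {y : ℂ} (hy : y ∈ X)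
    (h1 : y ≠ a + E (k + 1)) (h2 : y ≠ a + E (k + 1 + 1)) : Disjoint (D y) (T3 (VT a (k + 1))) := by
  have hk : k + 2 = k + 1 + 1 := by rw [add_assoc]; rfl
  by_cases h0 : y = a + E k
  · refine VT_miss ?_ (hX y hy _ h.fr1 h1) (hX y hy _ (hk ▸ h.fr2) h2)
    rw [h0, dist_eq_norm, add_sub_cancel_left, norm_E]
  · have := h.m2 y hy h0 h1 (by rw [hk]; exact h2)
    rw [hk] at this
    exact this

theorem om_eq : om = (1 / 2 : ℂ) + ((Real.sqrt 3 / 2 : ℝ) : ℂ) * Complex.I := by
  apply Complex.ext <;> simp [om]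

theorem lam_om (a : ℂ) (p q : ℤ) (ha : a ∈ Lam) : a + (p + q * om) ∈ Lam := by
  obtain ⟨m, n, rfl⟩ := ha
  refine ⟨m + p, n + q, ?_⟩
  rw [om_eq]; push_cast; ring

theorem lam_E {a : ℂ} (ha : a ∈ Lam) (k : Fin 6) : a + E k ∈ Lam := by
  have h2 := om_sq
  have h3 := om_cube
  have h : ∃ p q : ℤ, E k = p + q * om := by
    fin_cases k
    · exact ⟨1, 0, by simp [E, Dir]⟩
    · exact ⟨0, 1, by simp [E, Dir]⟩
    · exact ⟨-1, 1, by simp [E, Dir]; rw [h2]; ring⟩
    · exact ⟨-1, 0, by simp [E, Dir]; rw [h3]⟩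
    · refine ⟨0, -1, ?_⟩
      have : om ^ 4 = om ^ 3 * om := by ring
      simp [E, Dir]; rw [this, h3]; ring
    · refine ⟨1, -1, ?_⟩
      have : om ^ 5 = om ^ 3 * om ^ 2 := by ring
      simp [E, Dir]; rw [this, h3, h2]; ring
  obtain ⟨p, q, h⟩ := h
  rw [h]
  exact lam_om a p q ha

theorem small_D {a p : ℂ} (hp : ‖p - a‖ ^ 2 ≤ 3 * (1 / 200) ^ 2) : p ∈ D a := by
  rw [mem_D]
  have h2 : ‖p - a‖ ≤ 1 / 100 := by
    have := norm_nonneg (p - a)
    nlinarith
  have h4 : 1 / 2 < 1 / √3 := by
    rw [div_lt_div_iff₀ (by norm_num) sq3_pos]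
    have h := sq3
    have := sq3_pos
    nlinarith
  linarith

/-- core of the equality case: an apex `a i0` different from the other two is impossible -/
theorem eq_core {s : ℂ} (hs : s ∈ Lam) (g : ℂ → ℂ) (hfin : ((Lam \ {s}) ∩ {c | g c ≠ c}).Finite)
    (hg : ∀ c ∈ Lam \ {s}, ∀ d ∈ Lam \ {s}, c ≠ d → (1 : ℝ) ≤ dist (g c) (g d))
    {X : Set ℂ} (hX : X = g '' (Lam \ {s})) (a : Fin 3 → ℂ) (ha : ∀ i, a i ∈ Lam)
    (hv : ∀ i, Void X (a i) (kk i))
    (hdisj : ∀ i j, i ≠ j → ∀ b b' : Bool,
      Disjoint (T3 (VT (a i) (kb i b))) (T3 (VT (a j) (kb j b'))))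
    (i0 : Fin 3) (hi0 : ∀ j, j ≠ i0 → a j ≠ a i0)
    (ext : Fin 3 → ℂ) (hpos : 0 < A3 ext)
    (hsm : ∀ p ∈ T3 ext, ‖p - a i0‖ ^ 2 ≤ 3 * (1 / 200) ^ 2)
    (hvx : ∀ k, ‖ext k - a i0‖ ^ 2 ≤ 3 * (1 / 200) ^ 2)
    (hown : ∀ b : Bool, Disjoint (T3 ext) (T3 (VT (a i0) (kb i0 b))))
    (hDm : ∀ y ∈ X, Disjoint (D y) (T3 ext)) : False := by
  classical
  have hsep : Sep X := by
    subst hX
    rintro x ⟨c, hc, rfl⟩ y ⟨d, hd, rfl⟩ hne
    exact hg c hc d hd (fun h => hne (by rw [h]))
  -- frames
  have hfr : ∀ i b, a i + E (kb i b) ∈ X ∧ a i + E (kb i b + 1) ∈ X := by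
    intro i b
    have h := hv i
    cases b
    · exact ⟨h.fr0, h.fr1⟩
    · refine ⟨h.fr1, ?_⟩
      have hk : kk i + 1 + 1 = kk i + 2 := by rw [add_assoc]; rfl
      change a i + E (kk i + 1 + 1) ∈ X
      rw [hk]; exact h.fr2
  have hmiss : ∀ i b, ∀ y ∈ X, y ≠ a i + E (kb i b) → y ≠ a i + E (kb i b + 1) →
      Disjoint (D y) (T3 (VT (a i) (kb i b))) := by
    intro i b y hy h0 h1
    cases b
    · exact (hv i).missF hsep hy h0 h1
    · exact (hv i).missT hsep hy h0 h1
  have hdself : ∀ i, Disjoint (T3 (VT (a i) (kb i false))) (T3 (VT (a i) (kb i true))) := by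
    intro i
    rw [Set.disjoint_left]
    intro p hp hq
    obtain ⟨-, -, h3⟩ := hp
    obtain ⟨h4, -, -⟩ := hq
    -- cr (a - (a+E(k+1))) (p - (a+E (k+1))) > 0 and cr (E (k+1)) (p-a) > 0
    change 0 < cr (a i - (a i + E (kk i + 1))) (p - (a i + E (kk i + 1))) at h3
    change 0 < cr (a i + E (kk i + 1) - a i) (p - a i) at h4
    have e : cr (a i - (a i + E (kk i + 1))) (p - (a i + E (kk i + 1))) = -cr (E (kk i + 1)) (p - a i) := by
      simp [cr]; ring
    rw [e] at h3
    rw [add_sub_cancel_left] at h4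
    linarith
  have hfar_ext : ∀ j, j ≠ i0 → ∀ b, Disjoint (T3 ext) (T3 (VT (a j) (kb j b))) := by
    intro j hj b
    have hL := ha i0
    have h1 : Disjoint (D (a i0)) (T3 (VT (a j) (kb j b))) := by
      refine VT_miss (lam_sep _ hL _ (ha j) (hi0 j hj).symm) ?_ ?_
      · refine lam_sep _ hL _ (lam_E (ha j) _) ?_
        intro h
        exact (hv i0).na (h ▸ (hfr j b).1)
      · refine lam_sep _ hL _ (lam_E (ha j) _) ?_
        intro h
        exact (hv i0).na (h ▸ (hfr j b).2)
    rw [Set.disjoint_left] at h1 ⊢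
    intro p hp
    exact h1 (small_D (hsm p hp))
  let T : Option (Fin 3 × Bool) → Fin 3 → ℂ := fun o => match o with
    | none => ext
    | some (i, b) => VT (a i) (kb i b)
  have hextX : ∀ k, ext k ∉ X := by
    intro k hk
    have h1 := (hv i0).far hk
    have h2 := hvx k
    norm_num at h2
    linarith
  have hgen := al_gen hs g hfin hg hX (Finset.univ : Finset (Option (Fin 3 × Bool))) T
    (by
      intro o _
      match o with
      | none => exact hpos
      | some (i, b) =>
        change 0 < A3 (VT (a i) (kb i b))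
        rw [VT_A3]; have := sq3_pos; positivity)
    (by
      intro o _ k hk
      match o with
      | none => exact absurd hk (hextX k)
      | some (i, b) =>
        have hf := hfr i b
        have hfarI : ∀ y ∈ X, 1 / 3 ≤ ‖y - a i‖ ^ 2 := fun y hy => (hv i).far hy
        have n1 : ‖a i - (a i + E (kb i b))‖ = 1 := by
          rw [norm_sub_rev, add_sub_cancel_left, norm_E]
        have n2 : ‖a i - (a i + E (kb i b + 1))‖ = 1 := by
          rw [norm_sub_rev, add_sub_cancel_left, norm_E]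
        have n3 : dist (a i + E (kb i b + 1)) (a i + E (kb i b)) = 1 := by
          rw [dist_eq_norm]
          have : a i + E (kb i b + 1) - (a i + E (kb i b)) = E (kb i b + 2) := by rw [← E_sub]; ring
          rw [this, norm_E]
        have hne : a i + E (kb i b + 1) ≠ a i + E (kb i b) := by
          intro h; rw [h, dist_self] at n3; norm_num at n3
        have h13 : (1 : ℝ) ≤ √3 := by
          have := EQR_s3; linarith
        have l1 : dist (a i + E (kb i b + 1)) (a i + E (kb i b)) ≤ √3 := by rw [n3]; exact h13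
        have l2 : dist (a i + E (kb i b)) (a i + E (kb i b + 1)) ≤ √3 := by rw [dist_comm]; exact l1
        fin_cases k
        · exact absurd hk (hv i).na
        · exact ⟨free_X hsep hf.1 hf.2 hne l1, free_void hsep hf.1 n1 hfarI⟩
        · exact ⟨free_void hsep hf.2 n2 hfarI, free_X hsep hf.2 hf.1 hne.symm l2⟩)
    (by
      intro o _ y hy hk
      match o with
      | none => exact hDm y hy
      | some (i, b) => exact hmiss i b y hy (fun h => hk 1 h.symm) (fun h => hk 2 h.symm))
    (by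
      intro o _ o' _ hne
      match o, o' with
      | none, none => exact absurd rfl hne
      | none, some (j, b) =>
        by_cases hj : j = i0
        · subst hj; exact hown b
        · exact hfar_ext j hj b
      | some (j, b), none =>
        refine Disjoint.symm ?_
        by_cases hj : j = i0
        · subst hj; exact hown b
        · exact hfar_ext j hj b
      | some (i, b), some (j, b') =>
        by_cases hij : i = j
        · subst hij
          cases b <;> cases b'
          · exact absurd rfl hne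
          · exact hdself i
          · exact (hdself i).symm
          · exact absurd rfl hne
        · exact hdisj i j hij b b')
  rw [Fintype.sum_option, Fintype.sum_option] at hgen
  have h1 : ∑ x : Fin 3 × Bool, A3 (T (some x)) / 2 = 6 * (√3 / 4) := by
    have : ∀ x : Fin 3 × Bool, A3 (T (some x)) / 2 = √3 / 4 := by
      rintro ⟨i, b⟩
      change A3 (VT (a i) (kb i b)) / 2 = √3 / 4
      rw [VT_A3]; ring
    rw [Finset.sum_congr rfl (fun x _ => this x)]
    simp
  have h2 : (∑ k : Fin 3, if T none k ∈ X then volume.real (K3 (T none) k ∩ D (T none k)) else 0) = 0 := by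
    refine Finset.sum_eq_zero fun k _ => ?_
    exact if_neg (hextX k)
  have h3 : ∑ x : Fin 3 × Bool, (∑ k : Fin 3, if T (some x) k ∈ X then
      volume.real (K3 (T (some x)) k ∩ D (T (some x) k)) else 0) = 6 * (π / 9) := by
    have : ∀ x : Fin 3 × Bool, (∑ k : Fin 3, if T (some x) k ∈ X then
        volume.real (K3 (T (some x)) k ∩ D (T (some x) k)) else 0) = π / 9 := by
      rintro ⟨i, b⟩
      change (∑ k : Fin 3, if VT (a i) (kb i b) k ∈ X then
        volume.real (K3 (VT (a i) (kb i b)) k ∩ D (VT (a i) (kb i b) k)) else 0) = π / 9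
      rw [Fin.sum_univ_three, if_neg (show VT (a i) (kb i b) 0 ∉ X from (hv i).na),
        if_pos (show VT (a i) (kb i b) 1 ∈ X from (hfr i b).1),
        if_pos (show VT (a i) (kb i b) 2 ∈ X from (hfr i b).2), VT_c1, VT_c2]
      ring
    rw [Finset.sum_congr rfl (fun x _ => this x)]
    simp
  rw [h1, h2, h3] at hgen
  have h4 : kap * (0 + 6 * (π / 9)) = √3 := by
    unfold kap; field_simp; ring
  rw [h4] at hgen
  have h5 : A3 (T none) = A3 ext := rfl
  rw [h5] at hgen
  linarith

/-- three void apexes with exact frames coincide -/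
theorem eq_same {s : ℂ} (hs : s ∈ Lam) (g : ℂ → ℂ) (hfin : ((Lam \ {s}) ∩ {c | g c ≠ c}).Finite)
    (hg : ∀ c ∈ Lam \ {s}, ∀ d ∈ Lam \ {s}, c ≠ d → (1 : ℝ) ≤ dist (g c) (g d))
    {X : Set ℂ} (hX : X = g '' (Lam \ {s})) (a : Fin 3 → ℂ) (ha : ∀ i, a i ∈ Lam)
    (hv : ∀ i, Void X (a i) (kk i))
    (hdisj : ∀ i j, i ≠ j → ∀ b b' : Bool,
      Disjoint (T3 (VT (a i) (kb i b))) (T3 (VT (a j) (kb j b')))) :
    a 1 = a 0 ∧ a 2 = a 0 := by
  have hsep : Sep X := by
    subst hX
    rintro x ⟨c, hc, rfl⟩ y ⟨d, hd, rfl⟩ hne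
    exact hg c hc d hd (fun h => hne (by rw [h]))
  have key : ∀ i0 : Fin 3, ¬ ∀ j, j ≠ i0 → a j ≠ a i0 := by
    intro i0 hi0
    have hvi := hv i0
    set k := kk i0 with hk
    have kb0 : kb i0 false = k := rfl
    have kb1 : kb i0 true = k + 1 := rfl
    have s := sq3_pos
    rcases hvi.extra hsep with h | h
    · refine eq_core hs g hfin hg hX a ha hv hdisj i0 hi0 (TR (a i0) k) (TR_pos _ _)
        (fun p hp => (TR_mem hp).2.2.2) ?_ ?_ h
      · intro m
        have n1 : ‖gR k‖ ^ 2 = 3 := by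
          have hl := lag (gR k) (E (k + 1))
          rw [gR_cr, gR_dt, norm_E] at hl
          have := sq3; nlinarith
        fin_cases m
        · change ‖a i0 - a i0‖ ^ 2 ≤ _
          simp
        · change ‖a i0 + ((1 / 200 : ℝ) : ℂ) * gR k - a i0‖ ^ 2 ≤ _
          rw [add_sub_cancel_left, norm_mul, mul_pow, n1, Complex.norm_real, Real.norm_of_nonneg (by norm_num)]
          norm_num
        · change ‖a i0 + ((1 / 200 : ℝ) : ℂ) * E k - a i0‖ ^ 2 ≤ _
          rw [add_sub_cancel_left, norm_mul, mul_pow, norm_E, Complex.norm_real, Real.norm_of_nonneg (by norm_num)]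
          norm_num
      · intro b
        rw [Set.disjoint_left]
        intro p hp hq
        have h3 := (TR_mem hp).2.2.1
        cases b
        · obtain ⟨h4, -, -⟩ := hq
          change 0 < cr (a i0 + E k - a i0) (p - a i0) at h4
          rw [add_sub_cancel_left] at h4
          linarith
        · have hc : 0 < cr (E (k + 1)) (E (k + 1 + 1)) := by rw [cr_E]; positivity
          obtain ⟨α, β, hα, hβ, -, e⟩ := decomp hc hq
          have e' : p - a i0 = α * E (k + 1) + β * E (k + 1 + 1) := e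
          have hk2 : k + 1 + 1 = k + 2 := by rw [add_assoc]; rfl
          rw [e', comp', hk2, cr_E, cr_E2] at h3
          have : 0 < α * (√3 / 2) + β * (√3 / 2) := by positivity
          linarith
    · refine eq_core hs g hfin hg hX a ha hv hdisj i0 hi0 (TL (a i0) k) (TL_pos _ _)
        (fun p hp => (TL_mem hp).2.2.2) ?_ ?_ h
      · intro m
        have n1 : ‖-gR k‖ ^ 2 = 3 := by
          rw [norm_neg]
          have hl := lag (gR k) (E (k + 1))
          rw [gR_cr, gR_dt, norm_E] at hl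
          have := sq3; nlinarith
        fin_cases m
        · change ‖a i0 - a i0‖ ^ 2 ≤ _
          simp
        · change ‖a i0 + ((1 / 200 : ℝ) : ℂ) * E (k + 2) - a i0‖ ^ 2 ≤ _
          rw [add_sub_cancel_left, norm_mul, mul_pow, norm_E, Complex.norm_real, Real.norm_of_nonneg (by norm_num)]
          norm_num
        · change ‖a i0 + ((1 / 200 : ℝ) : ℂ) * (-gR k) - a i0‖ ^ 2 ≤ _
          rw [add_sub_cancel_left, norm_mul, mul_pow, n1, Complex.norm_real, Real.norm_of_nonneg (by norm_num)]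
          norm_num
      · intro b
        rw [Set.disjoint_left]
        intro p hp hq
        have h3 := (TL_mem hp).2.2.1
        have c1 : cr (E (k + 2)) (E k) = -(√3 / 2) := by rw [cr_comm, cr_E2]
        cases b
        · have hc : 0 < cr (E k) (E (k + 1)) := by rw [cr_E]; positivity
          obtain ⟨α, β, hα, hβ, -, e⟩ := decomp hc hq
          have e' : p - a i0 = α * E k + β * E (k + 1) := e
          rw [e', comp', cr_E21, c1] at h3
          have : 0 < α * (√3 / 2) + β * (√3 / 2) := by positivity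
          linarith
        · have hc : 0 < cr (E (k + 1)) (E (k + 1 + 1)) := by rw [cr_E]; positivity
          obtain ⟨α, β, hα, hβ, -, e⟩ := decomp hc hq
          have e' : p - a i0 = α * E (k + 1) + β * E (k + 1 + 1) := e
          have hk2 : k + 1 + 1 = k + 2 := by rw [add_assoc]; rfl
          rw [e', comp', hk2, cr_E21, cr_self] at h3
          have : 0 < α * (√3 / 2) := by positivity
          linarith
  by_contra hcon
  have h01 : a 1 = a 0 ∨ a 1 ≠ a 0 := em _
  rcases h01 with h01 | h01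
  · -- then a 2 differs from both
    have h2 : a 2 ≠ a 0 := fun h => hcon ⟨h01, h⟩
    apply key 2
    intro j hj
    fin_cases j
    · exact h2.symm
    · change a 1 ≠ a 2
      rw [h01]; exact h2.symm
    · exact absurd rfl hj
  · by_cases h02 : a 2 = a 0
    · apply key 1
      intro j hj
      fin_cases j
      · exact h01.symm
      · exact absurd rfl hj
      · change a 2 ≠ a 1
        rw [h02]; exact h01.symm
    · apply key 0
      intro j hj
      fin_cases j
      · exact absurd rfl hj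
      · exact h01
      · exact h02

end Pool.Agent.H16.T3
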