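import Pool.Agent.H16.T3.EQC

/-!
# EQF: end of the equality case: a packing containing the lattice minus a point, but not that point
-/

set_option autoImplicit false

open Set Real MeasureTheory

noncomputable section

namespace Pool.Agent.H16.T3

open Pool.Agent.H20.AL

theorem lam_sub {a b c : ℂ} (ha : a ∈ Lam) (hb : b ∈ Lam) (hc : c ∈ Lam) : a + (b - c) ∈ Lam := by
  obtain ⟨m, n, rfl⟩ := ha
  obtain ⟨m', n', rfl⟩ := hb
  obtain ⟨m'', n'', rfl⟩ := hc
  exact ⟨m + (m' - m''), n + (n' - n''), by push_cast; ring⟩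

theorem eq_fin {X : Set ℂ} (hsep : Sep X) {a : ℂ} (ha : a ∈ Lam) (hna : a ∉ X) (hsub : Lam \ {a} ⊆ X) :
    X = Lam \ {a} := by
  refine Set.Subset.antisymm ?_ hsub
  intro x hx
  have hxa : x ≠ a := fun h => hna (h ▸ hx)
  refine ⟨?_, hxa⟩
  by_contra hxL
  obtain ⟨σ, hσ, hd⟩ := lam_near x
  by_cases hσa : σ = a
  · subst hσa
    set v := x - σ with hv
    have hv1 : ‖v‖ < 1 := by rwa [dist_eq_norm] at hd
    have hvpos : 0 < ‖v‖ ^ 2 := by
      have : v ≠ 0 := sub_ne_zero.2 hxa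
      positivity
    have hv2 : ‖v‖ ^ 2 < 1 := by nlinarith [norm_nonneg v]
    -- all neighbours are at distance at least one
    have hk : ∀ k : Fin 6, 2 * dt v (E k) ≤ ‖v‖ ^ 2 := by
      intro k
      have hne : σ + E k ≠ σ := by
        intro h
        have h2 : E k = 0 := by
          have := congrArg (fun z => z - σ) h
          simpa using this
        have := norm_E k
        rw [h2, norm_zero] at this
        norm_num at this
      have hm : σ + E k ∈ X := hsub ⟨lam_E ha k, hne⟩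
      have hxk : x ≠ σ + E k := by
        intro h
        exact hxL (h ▸ lam_E ha k)
      have h1 := hsep x hx _ hm hxk
      have h2 : 1 ≤ dist x (σ + E k) ^ 2 := by nlinarith
      have h3 : dist x (σ + E k) ^ 2 = ‖v‖ ^ 2 - 2 * dt v (E k) + ((E k).re ^ 2 + (E k).im ^ 2) := by
        rw [dist_eq_norm, nsq, nsq, hv]; simp [dt]; ring
      rw [E_nsq] at h3
      linarith
    have e0 : dt v (E 0) = v.re := by simp [E, Dir, dt]
    have e1 : dt v (E 1) = v.re / 2 + v.im * (√3 / 2) := by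
      simp [E, Dir, dt, om]; ring
    have e3 : dt v (E 3) = -v.re := by
      have h : E 3 = -E 0 := Dir_three 1 0
      rw [h, ← e0]; simp [dt]; ring
    have e4 : dt v (E 4) = -(v.re / 2 + v.im * (√3 / 2)) := by
      have h : E 4 = -E 1 := Dir_three 1 1
      rw [h, ← e1]; simp [dt]; ring
    have e2 : dt v (E 2) = -(v.re / 2) + v.im * (√3 / 2) := by
      have h : E 2 = E 1 - E 0 := E_two_sub 0
      have h2 : dt v (E 1 - E 0) = dt v (E 1) - dt v (E 0) := by simp [dt]; ring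
      rw [h, h2, e0, e1]; ring
    have e5 : dt v (E 5) = -(-(v.re / 2) + v.im * (√3 / 2)) := by
      have h : E 5 = -E 2 := Dir_three 1 2
      rw [h, ← e2]; simp [dt]; ring
    have k0 := hk 0
    have k1 := hk 1
    have k2 := hk 2
    have k3 := hk 3
    have k4 := hk 4
    have k5 := hk 5
    rw [e0] at k0
    rw [e1] at k1
    rw [e2] at k2
    rw [e3] at k3
    rw [e4] at k4
    rw [e5] at k5
    have q0 : (2 * v.re) ^ 2 ≤ (‖v‖ ^ 2) ^ 2 := sq_le_sq' (by linarith) (by linarith)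
    have q1 : (2 * (v.re / 2 + v.im * (√3 / 2))) ^ 2 ≤ (‖v‖ ^ 2) ^ 2 := sq_le_sq' (by linarith) (by linarith)
    have q2 : (2 * (-(v.re / 2) + v.im * (√3 / 2))) ^ 2 ≤ (‖v‖ ^ 2) ^ 2 := sq_le_sq' (by linarith) (by linarith)
    have s3 := sq3
    have hn : ‖v‖ ^ 2 = v.re ^ 2 + v.im ^ 2 := nsq v
    have hsum : (2 * v.re) ^ 2 + (2 * (v.re / 2 + v.im * (√3 / 2))) ^ 2 +
        (2 * (-(v.re / 2) + v.im * (√3 / 2))) ^ 2 = 6 * ‖v‖ ^ 2 := by
      rw [hn]; linear_combination (2 * v.im ^ 2) * s3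
    nlinarith
  · have h1 := hsep x hx σ (hsub ⟨hσ, hσa⟩) (fun h => hxL (h ▸ hσ))
    linarith

theorem eq_final {X : Set ℂ} (hsep : Sep X) {s a : ℂ} (hs : s ∈ Lam) (ha : a ∈ Lam) (hna : a ∉ X)
    (hsub : Lam \ {a} ⊆ X) : ∃ φ : ℂ ≃ᵢ ℂ, φ '' (Lam \ {s}) = X := by
  refine ⟨IsometryEquiv.addRight (a - s), ?_⟩
  rw [eq_fin hsep ha hna hsub]
  ext z
  constructor
  · rintro ⟨c, ⟨hc, hcs⟩, rfl⟩
    refine ⟨lam_sub hc ha hs, ?_⟩
    intro h
    apply hcs
    have h2 : c + (a - s) = a := h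
    have : c = s := by linear_combination h2
    exact this
  · rintro ⟨hz, hza⟩
    refine ⟨z + (s - a), ⟨lam_sub hz hs ha, ?_⟩, ?_⟩
    · intro h
      apply hza
      have h2 : z + (s - a) = s := h
      have : z = a := by linear_combination h2
      exact this
    · change z + (s - a) + (a - s) = z
      ring

end Pool.Agent.H16.T3
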