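import Pool.Agent.H16.T3.TRN
import Pool.Agent.H20.AL.FIN

/-!
# FAM: the family of displaced lattice triangles satisfies the hypotheses of the accounting lemma

A lattice triangle is `q = (t, k)`: vertices `t, t + Dir u k, t + Dir u (k+1)`.  `LT pos u q` is the displaced triangle,
`cen u q` its (undisplaced) centroid, which identifies the lattice triangle (the same triangle has three labels).
`TurnT pos u q`: its three edges turn by less than 30 degrees.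
-/

set_option autoImplicit false

open Set

noncomputable section

namespace Pool.Agent.H16.T3

open Pool.Agent.H20.AL

/-- displaced lattice triangle -/
def LT (pos : ℂ → ℂ) (u : ℂ) (q : ℂ × Fin 6) : Fin 3 → ℂ :=
  ![pos q.1, pos (q.1 + Dir u q.2), pos (q.1 + Dir u (q.2 + 1))]

/-- centroid of the lattice triangle (times 1) -/
def cen (u : ℂ) (q : ℂ × Fin 6) : ℂ := q.1 + (Dir u q.2 + Dir u (q.2 + 1)) / 3

/-- the three edges turn by less than 30 degrees -/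
def TurnT (pos : ℂ → ℂ) (u : ℂ) (q : ℂ × Fin 6) : Prop :=
  Turn (Dir u q.2) (pos (q.1 + Dir u q.2) - pos q.1) ∧
  Turn (Dir u (q.2 + 1)) (pos (q.1 + Dir u (q.2 + 1)) - pos q.1) ∧
  Turn (Dir u (q.2 + 2)) (pos (q.1 + Dir u (q.2 + 1)) - pos (q.1 + Dir u q.2))

/-- the corner of the lattice triangle `q` at its vertex `m` -/
def crn (u : ℂ) (q : ℂ × Fin 6) (m : Fin 3) : ℂ × Fin 6 :=
  ![(q.1, q.2), (q.1 + Dir u q.2, q.2 + 2), (q.1 + Dir u (q.2 + 1), q.2 + 4)] m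

theorem Dir_four (u : ℂ) (k : Fin 6) : Dir u (k + 4) = -Dir u (k + 1) := by
  have h : k + 4 = k + 1 + 3 := by rw [add_assoc]; rfl
  rw [h, Dir_three]

theorem Dir_five (u : ℂ) (k : Fin 6) : Dir u (k + 5) = -Dir u (k + 2) := by
  have h : k + 5 = k + 2 + 3 := by rw [add_assoc]; rfl
  rw [h, Dir_three]

theorem crn_cen (u : ℂ) (q : ℂ × Fin 6) (m : Fin 3) : cen u (crn u q m) = cen u q := by
  obtain ⟨t, k⟩ := q
  fin_cases m
  · rfl
  · simp only [cen, crn]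
    change t + Dir u k + (Dir u (k + 2) + Dir u (k + 2 + 1)) / 3 = t + (Dir u k + Dir u (k + 1)) / 3
    have h : k + 2 + 1 = k + 3 := by rw [add_assoc]; rfl
    rw [h, Dir_three, Dir_two]; ring
  · simp only [cen, crn]
    change t + Dir u (k + 1) + (Dir u (k + 4) + Dir u (k + 4 + 1)) / 3 = t + (Dir u k + Dir u (k + 1)) / 3
    have h : k + 4 + 1 = k + 5 := by rw [add_assoc]; rfl
    rw [h, Dir_four, Dir_five, Dir_two]; ring

/-- the vertices of a displaced triangle -/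
theorem LT_apply (pos : ℂ → ℂ) (u : ℂ) (q : ℂ × Fin 6) (m : Fin 3) :
    LT pos u q m = pos (crn u q m).1 := by
  fin_cases m <;> rfl

theorem LT_next (pos : ℂ → ℂ) (u : ℂ) (q : ℂ × Fin 6) (m : Fin 3) :
    LT pos u q (m + 1) = pos ((crn u q m).1 + Dir u (crn u q m).2) := by
  obtain ⟨t, k⟩ := q
  fin_cases m
  · rfl
  · change pos (t + Dir u (k + 1)) = pos (t + Dir u k + Dir u (k + 2))
    rw [Dir_two]; congr 1; ring
  · change pos t = pos (t + Dir u (k + 1) + Dir u (k + 4))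
    rw [Dir_four]; congr 1; ring

theorem LT_next2 (pos : ℂ → ℂ) (u : ℂ) (q : ℂ × Fin 6) (m : Fin 3) :
    LT pos u q (m + 2) = pos ((crn u q m).1 + Dir u ((crn u q m).2 + 1)) := by
  obtain ⟨t, k⟩ := q
  fin_cases m
  · rfl
  · change pos t = pos (t + Dir u k + Dir u (k + 2 + 1))
    have h : k + 2 + 1 = k + 3 := by rw [add_assoc]; rfl
    rw [h, Dir_three]; congr 1; ring
  · change pos (t + Dir u k) = pos (t + Dir u (k + 1) + Dir u (k + 4 + 1))
    have h : k + 4 + 1 = k + 5 := by rw [add_assoc]; rfl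
    rw [h, Dir_five, Dir_two]; congr 1; ring

theorem crn_turn {pos : ℂ → ℂ} {u : ℂ} {q : ℂ × Fin 6} (hq : TurnT pos u q) (m : Fin 3) :
    Turn (Dir u (crn u q m).2) (LT pos u q (m + 1) - LT pos u q m) ∧
    Turn (Dir u ((crn u q m).2 + 1)) (LT pos u q (m + 2) - LT pos u q m) := by
  obtain ⟨t, k⟩ := q
  obtain ⟨h1, h2, h3⟩ := hq
  simp only at h1 h2 h3
  fin_cases m
  · exact ⟨h1, h2⟩
  · refine ⟨h3, ?_⟩
    change Turn (Dir u (k + 2 + 1)) (pos t - pos (t + Dir u k))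
    have h : k + 2 + 1 = k + 3 := by rw [add_assoc]; rfl
    rw [h, Dir_three, ← neg_sub]
    exact turn_neg h1
  · refine ⟨?_, ?_⟩
    · change Turn (Dir u (k + 4)) (pos t - pos (t + Dir u (k + 1)))
      rw [Dir_four, ← neg_sub]
      exact turn_neg h2
    · change Turn (Dir u (k + 4 + 1)) (pos (t + Dir u k) - pos (t + Dir u (k + 1)))
      have h : k + 4 + 1 = k + 5 := by rw [add_assoc]; rfl
      rw [h, Dir_five, ← neg_sub]
      exact turn_neg h3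

/-- cone condition of the accounting lemma for two different displaced lattice triangles -/
theorem fam_cone {pos : ℂ → ℂ} {u : ℂ} {q q' : ℂ × Fin 6} (hq : TurnT pos u q) (hq' : TurnT pos u q')
    (hne : cen u q ≠ cen u q') (m l : Fin 3)
    (hinj : pos (crn u q m).1 = pos (crn u q' l).1 → (crn u q m).1 = (crn u q' l).1)
    (h : LT pos u q m = LT pos u q' l) :
    Disjoint (K3 (LT pos u q) m) (K3 (LT pos u q') l) := by
  unfold K3
  have hv : (crn u q m).1 = (crn u q' l).1 := by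
    apply hinj
    rw [← LT_apply pos u q m, ← LT_apply pos u q' l, h]
  have hk : (crn u q m).2 ≠ (crn u q' l).2 := by
    intro hk
    apply hne
    rw [← crn_cen u q m, ← crn_cen u q' l]
    exact congrArg (cen u) (Prod.ext hv hk)
  obtain ⟨a1, a2⟩ := crn_turn hq m
  obtain ⟨b1, b2⟩ := crn_turn hq' l
  rw [← h] at b1 b2 ⊢
  refine cones u (LT pos u q m) _ _ _ _ (crn u q m).2 (crn u q' l).2 hk a1 a2 b1 b2 ?_ ?_
  · intro e
    rw [LT_next, LT_next2, ← hv, e]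
  · intro e
    rw [LT_next, LT_next2, ← hv, e]

/-- positive orientation -/
theorem fam_pos {pos : ℂ → ℂ} {u : ℂ} {q : ℂ × Fin 6} (hq : TurnT pos u q) : 0 < A3 (LT pos u q) := by
  obtain ⟨a1, a2⟩ := crn_turn hq 0
  rw [Dir_succ] at a2
  exact cr_next a1 a2

/-- `Good` from the three edges -/
theorem fam_good {pos : ℂ → ℂ} {u : ℂ} {q : ℂ × Fin 6} (hq : TurnT pos u q)
    (h1 : ‖pos (q.1 + Dir u q.2) - pos q.1‖ ^ 2 ≤ 8 / 3)
    (h2 : ‖pos (q.1 + Dir u (q.2 + 1)) - pos q.1‖ ^ 2 ≤ 8 / 3)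
    (h3 : ‖pos (q.1 + Dir u (q.2 + 1)) - pos (q.1 + Dir u q.2)‖ ^ 2 ≤ 8 / 3)
    (h12 : ‖pos (q.1 + Dir u q.2) - pos q.1‖ ^ 2 < 2 ∨ ‖pos (q.1 + Dir u (q.2 + 1)) - pos q.1‖ ^ 2 < 2)
    (h13 : ‖pos (q.1 + Dir u q.2) - pos q.1‖ ^ 2 < 2 ∨
      ‖pos (q.1 + Dir u (q.2 + 1)) - pos (q.1 + Dir u q.2)‖ ^ 2 < 2)
    (h23 : ‖pos (q.1 + Dir u (q.2 + 1)) - pos q.1‖ ^ 2 < 2 ∨
      ‖pos (q.1 + Dir u (q.2 + 1)) - pos (q.1 + Dir u q.2)‖ ^ 2 < 2) : Good (LT pos u q) := by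
  have e0 : LT pos u q 1 - LT pos u q 0 = pos (q.1 + Dir u q.2) - pos q.1 := rfl
  have e1 : LT pos u q 2 - LT pos u q 1 = pos (q.1 + Dir u (q.2 + 1)) - pos (q.1 + Dir u q.2) := rfl
  have e2 : ‖LT pos u q 0 - LT pos u q 2‖ = ‖pos (q.1 + Dir u (q.2 + 1)) - pos q.1‖ := norm_sub_rev _ _
  refine ⟨fam_pos hq, ?_, ?_⟩
  · intro i
    fin_cases i
    · change ‖LT pos u q 1 - LT pos u q 0‖ ^ 2 ≤ 8 / 3
      rw [e0]; exact h1
    · change ‖LT pos u q 2 - LT pos u q 1‖ ^ 2 ≤ 8 / 3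
      rw [e1]; exact h3
    · change ‖LT pos u q 0 - LT pos u q 2‖ ^ 2 ≤ 8 / 3
      rw [e2]; exact h2
  · intro i j hij
    fin_cases i <;> fin_cases j
    · exact absurd rfl hij
    · change ‖LT pos u q 1 - LT pos u q 0‖ ^ 2 < 2 ∨ ‖LT pos u q 2 - LT pos u q 1‖ ^ 2 < 2
      rw [e0, e1]; exact h13
    · change ‖LT pos u q 1 - LT pos u q 0‖ ^ 2 < 2 ∨ ‖LT pos u q 0 - LT pos u q 2‖ ^ 2 < 2
      rw [e0, e2]; exact h12
    · change ‖LT pos u q 2 - LT pos u q 1‖ ^ 2 < 2 ∨ ‖LT pos u q 1 - LT pos u q 0‖ ^ 2 < 2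
      rw [e0, e1]; exact h13.symm
    · exact absurd rfl hij
    · change ‖LT pos u q 2 - LT pos u q 1‖ ^ 2 < 2 ∨ ‖LT pos u q 0 - LT pos u q 2‖ ^ 2 < 2
      rw [e1, e2]; exact h23.symm
    · change ‖LT pos u q 0 - LT pos u q 2‖ ^ 2 < 2 ∨ ‖LT pos u q 1 - LT pos u q 0‖ ^ 2 < 2
      rw [e0, e2]; exact h12.symm
    · change ‖LT pos u q 0 - LT pos u q 2‖ ^ 2 < 2 ∨ ‖LT pos u q 2 - LT pos u q 1‖ ^ 2 < 2
      rw [e1, e2]; exact h23
    · exact absurd rfl hij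

end Pool.Agent.H16.T3
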