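import Pool.Agent.H16.T3.EQF
import Pool.Agent.H63.P6.Glob

/-!
# LAT: the wedges of the skeleton (`H63.P6.Glob`) in terms of `E k`, `LT`, `TurnT`

`kk k = 2k`, `kb k b = 2k` or `2k+1`; cell `p` of the wedge `k` with apex `a`: the two lattice triangles `(a + ws k p, kb k b)`.
-/

set_option autoImplicit false

open Set Real Finset

noncomputable section

namespace Pool.Agent.H16.T3

open Pool.Agent.H20.AL Pool.Agent.H63.P6

theorem kk0 : kk 0 = 0 := rfl
theorem kk1 : kk 1 = 2 := rfl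
theorem kk2 : kk 2 = 4 := rfl

theorem E_zero : E 0 = 1 := by simp [E, Dir]

theorem E_pow (k : Fin 6) : E k = om ^ (k : ℕ) := by simp [E, Dir]

theorem E_kk (k : Fin 3) : E (kk k) = om ^ (2 * (k : ℕ)) := by
  rw [E_pow]; fin_cases k <;> rfl

theorem E_kk1 (k : Fin 3) : E (kk k + 1) = om ^ (2 * (k : ℕ) + 1) := by
  rw [E_pow]; fin_cases k <;> rfl

theorem E_kk2 (k : Fin 3) : E (kk k + 2) = om ^ (2 * (k : ℕ) + 2) := by
  rw [E_pow]
  fin_cases k
  · rfl
  · rfl
  · change om ^ 0 = om ^ 6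
    rw [om_six, pow_zero]

theorem d1_om : d1 * om = d2 := by
  apply Complex.ext
  · rw [Complex.mul_re]; simp only [d1, d2, om]; ring
  · rw [Complex.mul_im]; simp only [d1, d2, om]; nlinarith [sq3]

theorem d2_om : d2 * om = d3 := by
  apply Complex.ext
  · rw [Complex.mul_re]; simp only [d2, d3, om]; ring
  · rw [Complex.mul_im]; simp only [d2, d3, om]; ring

theorem rho_E (k : Fin 3) : rho k * E (kk k) = d1 := by
  rw [E_kk, rho, mul_assoc, ← pow_add]
  have : 6 - 2 * (k : ℕ) + 2 * (k : ℕ) = 6 := by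
    have := k.2; omega
  rw [this, om_six, mul_one]

theorem rho_E1 (k : Fin 3) : rho k * E (kk k + 1) = d2 := by
  rw [E_succ, ← mul_assoc, mul_comm (rho k) om, mul_assoc, rho_E, mul_comm, d1_om]

theorem rho_E2 (k : Fin 3) : rho k * E (kk k + 2) = d3 := by
  rw [E_two, ← mul_assoc, mul_comm (rho k) om, mul_assoc, rho_E1, mul_comm, d2_om]

theorem norm_rho (k : Fin 3) : ‖rho k‖ = 1 := by
  have h := congrArg norm (rho_E k)
  rw [norm_mul, norm_E, mul_one, Loc_norm_d1] at h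
  exact h

theorem rho_nsq (k : Fin 3) : (rho k).re ^ 2 + (rho k).im ^ 2 = 1 := by
  rw [← nsq, norm_rho]; norm_num

theorem cr_rho (k : Fin 3) (u v : ℂ) : cr (rho k * u) (rho k * v) = cr u v := by
  rw [cr_mul, rho_nsq, one_mul]

theorem dt_rho (k : Fin 3) (u v : ℂ) : dt (rho k * u) (rho k * v) = dt u v := by
  rw [dt_mul, rho_nsq, one_mul]

theorem turn_rho {k : Fin 3} {u v : ℂ} (h : Turn (rho k * u) (rho k * v)) : Turn u v := by
  unfold Turn at *
  rwa [cr_rho, dt_rho] at h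

theorem norm_rho_mul (k : Fin 3) (u : ℂ) : ‖rho k * u‖ = ‖u‖ := by
  rw [norm_mul, norm_rho, one_mul]

theorem ws_10 (k : Fin 3) (p : ℤ × ℤ) : ws k (p + (1, 0)) = ws k p + E (kk k) := by
  rw [E_kk]; simp [ws]; ring

theorem ws_01 (k : Fin 3) (p : ℤ × ℤ) : ws k (p + (0, 1)) = ws k p + E (kk k + 2) := by
  rw [E_kk2]; simp [ws]; ring

theorem ws_11 (k : Fin 3) (p : ℤ × ℤ) : ws k (p + (1, 1)) = ws k p + E (kk k + 1) := by
  have h : E (kk k + 1) = E (kk k) + E (kk k + 2) := by rw [E_two_sub]; ring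
  rw [h, E_kk, E_kk2]; simp [ws]; ring

theorem ws_zero (k : Fin 3) : ws k 0 = 0 := by simp [ws]

theorem ws_add (k : Fin 3) (p q : ℤ × ℤ) : ws k (p + q) = ws k p + ws k q := by
  simp [ws]; ring

/-- the site of a cell -/
def cs (a : ℂ) (k : Fin 3) (p : ℤ × ℤ) : ℂ := a + ws k p

theorem lam_zsmul {c : ℂ} (hc : c ∈ Lam) (m n : ℤ) (k l : Fin 6) : c + (m * E k + n * E l) ∈ Lam := by
  have hE : ∀ k : Fin 6, ∃ p q : ℤ, E k = p + q * om := by
    intro k
    have h2 := om_sq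
    have h3 := om_cube
    fin_cases k
    · exact ⟨1, 0, by simp [E, Dir]⟩
    · exact ⟨0, 1, by simp [E, Dir]⟩
    · exact ⟨-1, 1, by simp [E, Dir]; rw [h2]; ring⟩
    · exact ⟨-1, 0, by simp [E, Dir]; rw [h3]⟩
    · refine ⟨0, -1, ?_⟩
      have : om ^ 4 = om ^ 3 * om := by ring
      simp [E, Dir]; rw [this, h3]; ring
    · refine ⟨1, -1, ?_⟩
      have : om ^ 5 = om ^ 3 * om ^ 2 := by ring
      simp [E, Dir]; rw [this, h3, h2]; ring
  obtain ⟨p, q, h⟩ := hE k
  obtain ⟨p', q', h'⟩ := hE l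
  rw [h, h']
  have e : c + ((m : ℂ) * (p + q * om) + n * (p' + q' * om)) =
      c + (((m * p + n * p' : ℤ) : ℂ) + ((m * q + n * q' : ℤ) : ℂ) * om) := by push_cast; ring
  rw [e]
  exact lam_om c _ _ hc

theorem cs_mem {a : ℂ} (ha : a ∈ Lam) (k : Fin 3) (p : ℤ × ℤ) : cs a k p ∈ Lam := by
  unfold cs ws
  rw [← E_kk, ← E_kk2]
  exact lam_zsmul ha _ _ _ _

/-- linear independence -/
theorem om_indep {x y z : ℝ} (h : (x : ℂ) + y * om ^ 2 + z * om ^ 4 = 0) : x = y ∧ y = z := by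
  have h4 : om ^ 4 = -om := by
    have : om ^ 4 = om ^ 3 * om := by ring
    rw [this, om_cube]; ring
  rw [om_sq, h4] at h
  have hre := congrArg Complex.re h
  have him := congrArg Complex.im h
  simp [om_re, om_im] at hre him
  have s := sq3_pos
  have h1 : √3 * (y - z) = 0 := by nlinarith
  have h2 : y - z = 0 := by
    rcases mul_eq_zero.1 h1 with h | h
    · exact absurd h s.ne'
    · exact h
  constructor
  · linarith
  · linarith

/-- positive combinations of the boundary directions of different wedges are different -/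
theorem cone_ne {k l : Fin 3} (hkl : k ≠ l) {α β α' β' : ℝ} (hα : 0 < α) (hβ : 0 < β) (hα' : 0 < α')
    (hβ' : 0 < β') :
    (α : ℂ) * E (kk k) + β * E (kk k + 2) ≠ α' * E (kk l) + β' * E (kk l + 2) := by
  intro h
  rw [E_kk, E_kk2, E_kk, E_kk2] at h
  have h6 := om_six
  fin_cases k <;> fin_cases l
  · exact hkl rfl
  · have e : ((α : ℝ) : ℂ) + ((β - α' : ℝ) : ℂ) * om ^ 2 + ((-β' : ℝ) : ℂ) * om ^ 4 = 0 := by
      simp at h; push_cast; linear_combination h
    obtain ⟨h1, h2⟩ := om_indep e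
    linarith
  · have e : ((α - β' : ℝ) : ℂ) + ((β : ℝ) : ℂ) * om ^ 2 + ((-α' : ℝ) : ℂ) * om ^ 4 = 0 := by
      simp at h; push_cast; linear_combination h + (β' : ℂ) * h6
    obtain ⟨h1, h2⟩ := om_indep e
    linarith
  · have e : ((-α' : ℝ) : ℂ) + ((α - β' : ℝ) : ℂ) * om ^ 2 + ((β : ℝ) : ℂ) * om ^ 4 = 0 := by
      simp at h; push_cast; linear_combination h
    obtain ⟨h1, h2⟩ := om_indep e
    linarith
  · exact hkl rfl
  · have e : ((-β' : ℝ) : ℂ) + ((α : ℝ) : ℂ) * om ^ 2 + ((β - α' : ℝ) : ℂ) * om ^ 4 = 0 := by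
      simp at h; push_cast; linear_combination h + (β' : ℂ) * h6
    obtain ⟨h1, h2⟩ := om_indep e
    linarith
  · have e : ((β - α' : ℝ) : ℂ) + ((-β' : ℝ) : ℂ) * om ^ 2 + ((α : ℝ) : ℂ) * om ^ 4 = 0 := by
      simp at h; push_cast; linear_combination h - (β : ℂ) * h6
    obtain ⟨h1, h2⟩ := om_indep e
    linarith
  · have e : ((β : ℝ) : ℂ) + ((-α' : ℝ) : ℂ) * om ^ 2 + ((α - β' : ℝ) : ℂ) * om ^ 4 = 0 := by
      simp at h; push_cast; linear_combination h - (β : ℂ) * h6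
    obtain ⟨h1, h2⟩ := om_indep e
    linarith
  · exact hkl rfl

/-- independence inside one wedge -/
theorem wedge_inj {k : Fin 3} {α β α' β' : ℝ}
    (h : (α : ℂ) * E (kk k) + β * E (kk k + 2) = α' * E (kk k) + β' * E (kk k + 2)) : α = α' ∧ β = β' := by
  have e2 : E (kk k + 2) = om ^ 2 * E (kk k) := by
    rw [E_kk, E_kk2]; ring
  have hne : E (kk k) ≠ 0 := by
    intro h0
    have := norm_E (kk k)
    rw [h0, norm_zero] at this
    norm_num at this
  rw [e2] at h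
  have h1 : (((α - α' : ℝ) : ℂ) + ((β - β' : ℝ) : ℂ) * om ^ 2 + ((0 : ℝ) : ℂ) * om ^ 4) * E (kk k) = 0 := by
    push_cast; linear_combination h
  rcases mul_eq_zero.1 h1 with h2 | h2
  · obtain ⟨h3, h4⟩ := om_indep h2
    constructor <;> linarith
  · exact absurd h2 hne

/-- the centroid of a cell triangle in wedge coordinates -/
theorem cen_cell (a : ℂ) (k : Fin 3) (p : ℤ × ℤ) (b : Bool) :
    cen 1 (cs a k p, kb k b) = a + (((p.1 : ℝ) + (if b then 1 / 3 else 2 / 3) : ℝ) : ℂ) * E (kk k) +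
      (((p.2 : ℝ) + (if b then 2 / 3 else 1 / 3) : ℝ) : ℂ) * E (kk k + 2) := by
  have h : E (kk k + 1) = E (kk k) + E (kk k + 2) := by rw [E_two_sub]; ring
  cases b
  · change cs a k p + (E (kk k) + E (kk k + 1)) / 3 = _
    rw [h, cs, ws, ← E_kk, ← E_kk2]
    simp only [Bool.false_eq_true, if_false]
    push_cast; ring
  · change cs a k p + (E (kk k + 1) + E (kk k + 1 + 1)) / 3 = _
    have hk : kk k + 1 + 1 = kk k + 2 := by rw [add_assoc]; rfl
    rw [hk, h, cs, ws, ← E_kk, ← E_kk2]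
    simp only [if_true]
    push_cast; ring

/-- different cell triangles have different centroids -/
theorem cen_ne {c : ℂ} {a : Fin 3 → ℂ} (hc : ∀ k, ∃ p : ℤ × ℤ, 0 ≤ p ∧ a k = c + ws k p)
    {k l : Fin 3} {p q : ℤ × ℤ} {b b' : Bool} (hp : 0 ≤ p) (hq : 0 ≤ q) (hne : (k, p, b) ≠ (l, q, b')) :
    cen 1 (cs (a k) k p, kb k b) ≠ cen 1 (cs (a l) l q, kb l b') := by
  rw [cen_cell, cen_cell]
  have hpos : ∀ b : Bool, (0 : ℝ) < if b then 1 / 3 else 2 / 3 := by intro b; cases b <;> norm_num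
  have hpos' : ∀ b : Bool, (0 : ℝ) < if b then 2 / 3 else 1 / 3 := by intro b; cases b <;> norm_num
  by_cases hkl : k = l
  · subst hkl
    intro h
    have h' : (((p.1 : ℝ) + (if b then 1 / 3 else 2 / 3) : ℝ) : ℂ) * E (kk k) +
        (((p.2 : ℝ) + (if b then 2 / 3 else 1 / 3) : ℝ) : ℂ) * E (kk k + 2) =
        (((q.1 : ℝ) + (if b' then 1 / 3 else 2 / 3) : ℝ) : ℂ) * E (kk k) +
        (((q.2 : ℝ) + (if b' then 2 / 3 else 1 / 3) : ℝ) : ℂ) * E (kk k + 2) := by
      linear_combination h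
    obtain ⟨h1, h2⟩ := wedge_inj h'
    cases b <;> cases b'
    · simp only [Bool.false_eq_true, if_false] at h1 h2
      have e1 : (p.1 : ℝ) = q.1 := by linarith
      have e2 : (p.2 : ℝ) = q.2 := by linarith
      exact hne (by rw [Prod.ext (Int.cast_injective e1) (Int.cast_injective e2)])
    · simp only [Bool.false_eq_true, if_false, if_true] at h1 h2
      have e1 : ((3 * p.1 + 1 : ℤ) : ℝ) = (3 * q.1 : ℤ) := by push_cast; linarith
      have e2 := Int.cast_injective e1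
      omega
    · simp only [Bool.false_eq_true, if_false, if_true] at h1 h2
      have e1 : ((3 * p.1 : ℤ) : ℝ) = (3 * q.1 + 1 : ℤ) := by push_cast; linarith
      have e2 := Int.cast_injective e1
      omega
    · simp only [if_true] at h1 h2
      have e1 : (p.1 : ℝ) = q.1 := by linarith
      have e2 : (p.2 : ℝ) = q.2 := by linarith
      exact hne (by rw [Prod.ext (Int.cast_injective e1) (Int.cast_injective e2)])
  · obtain ⟨p0, hp0, e0⟩ := hc k
    obtain ⟨q0, hq0, f0⟩ := hc l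
    intro h
    rw [e0, f0, ws, ws, ← E_kk, ← E_kk2, ← E_kk, ← E_kk2] at h
    have c1 : (0 : ℝ) ≤ p.1 := by exact_mod_cast hp.1
    have c2 : (0 : ℝ) ≤ p.2 := by exact_mod_cast hp.2
    have c3 : (0 : ℝ) ≤ q.1 := by exact_mod_cast hq.1
    have c4 : (0 : ℝ) ≤ q.2 := by exact_mod_cast hq.2
    have c5 : (0 : ℝ) ≤ p0.1 := by exact_mod_cast hp0.1
    have c6 : (0 : ℝ) ≤ p0.2 := by exact_mod_cast hp0.2
    have c7 : (0 : ℝ) ≤ q0.1 := by exact_mod_cast hq0.1
    have c8 : (0 : ℝ) ≤ q0.2 := by exact_mod_cast hq0.2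
    refine cone_ne hkl (α := p0.1 + p.1 + (if b then 1 / 3 else 2 / 3)) (β := p0.2 + p.2 + (if b then 2 / 3 else 1 / 3))
      (α' := q0.1 + q.1 + (if b' then 1 / 3 else 2 / 3)) (β' := q0.2 + q.2 + (if b' then 2 / 3 else 1 / 3))
      (by have := hpos b; linarith) (by have := hpos' b; linarith) (by have := hpos b'; linarith)
      (by have := hpos' b'; linarith) ?_
    push_cast at h ⊢
    linear_combination h

end Pool.Agent.H16.T3
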