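import Pool.Agent.H16.T3.LAT

/-!
# NFAM: the finite family of the non-apex triangles of the three wedges

Index type `Cell = (k : Fin 3) × ((ℤ × ℤ) × Bool)`; `NT X a q` the displaced triangle of the cell; `NI M` the non-apex cells below `M`.
-/

set_option autoImplicit false

open Set Real Finset

noncomputable section

namespace Pool.Agent.H16.T3

open Pool.Agent.H20.AL Pool.Agent.H63.P6

/-- the star of the site `t` in the directions of the wedge `k`, in the original frame -/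
structure PS (el : ℝ) (X : Set ℂ) (k : Fin 3) (t : ℂ) : Prop where
  l1 : ‖pos X (t + E (kk k)) - pos X t‖ < el
  l2 : ‖pos X (t + E (kk k + 1)) - pos X t‖ < el
  l3 : ‖pos X (t + E (kk k + 2)) - pos X t‖ < el
  t1 : Turn (E (kk k)) (pos X (t + E (kk k)) - pos X t)
  t2 : Turn (E (kk k + 1)) (pos X (t + E (kk k + 1)) - pos X t)
  t3 : Turn (E (kk k + 2)) (pos X (t + E (kk k + 2)) - pos X t)
  g12 : ‖pos X (t + E (kk k)) - pos X t‖ ^ 2 < 2 ∨ ‖pos X (t + E (kk k + 1)) - pos X t‖ ^ 2 < 2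
  g23 : ‖pos X (t + E (kk k + 1)) - pos X t‖ ^ 2 < 2 ∨ ‖pos X (t + E (kk k + 2)) - pos X t‖ ^ 2 < 2
  h12 : ‖pos X (t + E (kk k)) - pos X t‖ ^ 2 < 2 ∨ ‖pos X (t + E (kk k + 1)) - pos X (t + E (kk k))‖ ^ 2 < 2
  h21 : ‖pos X (t + E (kk k + 1)) - pos X t‖ ^ 2 < 2 ∨ ‖pos X (t + E (kk k + 1)) - pos X (t + E (kk k))‖ ^ 2 < 2
  h23 : ‖pos X (t + E (kk k + 1)) - pos X t‖ ^ 2 < 2 ∨ ‖pos X (t + E (kk k + 2)) - pos X (t + E (kk k + 1))‖ ^ 2 < 2
  h32 : ‖pos X (t + E (kk k + 2)) - pos X t‖ ^ 2 < 2 ∨ ‖pos X (t + E (kk k + 2)) - pos X (t + E (kk k + 1))‖ ^ 2 < 2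

theorem lx_sub (X : Set ℂ) (k : Fin 3) (a : ℂ) (p q : ℤ × ℤ) :
    lx X k a q - lx X k a p = rho k * (pos X (cs a k q) - pos X (cs a k p)) := by
  unfold lx cs; ring

theorem cs_10 (a : ℂ) (k : Fin 3) (p : ℤ × ℤ) : cs a k (p + (1, 0)) = cs a k p + E (kk k) := by
  unfold cs; rw [ws_10]; ring
theorem cs_01 (a : ℂ) (k : Fin 3) (p : ℤ × ℤ) : cs a k (p + (0, 1)) = cs a k p + E (kk k + 2) := by
  unfold cs; rw [ws_01]; ring
theorem cs_11 (a : ℂ) (k : Fin 3) (p : ℤ × ℤ) : cs a k (p + (1, 1)) = cs a k p + E (kk k + 1) := by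
  unfold cs; rw [ws_11]; ring
theorem cs_zero (a : ℂ) (k : Fin 3) : cs a k 0 = a := by unfold cs; rw [ws_zero, add_zero]

theorem lx_10 (X : Set ℂ) (k : Fin 3) (a : ℂ) (p : ℤ × ℤ) :
    lx X k a (p + (1, 0)) - lx X k a p = rho k * (pos X (cs a k p + E (kk k)) - pos X (cs a k p)) := by
  rw [lx_sub, cs_10]
theorem lx_01 (X : Set ℂ) (k : Fin 3) (a : ℂ) (p : ℤ × ℤ) :
    lx X k a (p + (0, 1)) - lx X k a p = rho k * (pos X (cs a k p + E (kk k + 2)) - pos X (cs a k p)) := by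
  rw [lx_sub, cs_01]
theorem lx_11 (X : Set ℂ) (k : Fin 3) (a : ℂ) (p : ℤ × ℤ) :
    lx X k a (p + (1, 1)) - lx X k a p = rho k * (pos X (cs a k p + E (kk k + 1)) - pos X (cs a k p)) := by
  rw [lx_sub, cs_11]

theorem ps_of_star {el : ℝ} {X : Set ℂ} {k : Fin 3} {a : ℂ} {p : ℤ × ℤ} (h : StarAt el (lx X k a) p) :
    PS el X k (cs a k p) := by
  unfold StarAt at h
  rw [lx_10, lx_11, lx_01] at h
  have e1 : rho k * (pos X (cs a k p + E (kk k + 1)) - pos X (cs a k p)) -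
      rho k * (pos X (cs a k p + E (kk k)) - pos X (cs a k p)) =
      rho k * (pos X (cs a k p + E (kk k + 1)) - pos X (cs a k p + E (kk k))) := by ring
  have e2 : rho k * (pos X (cs a k p + E (kk k + 2)) - pos X (cs a k p)) -
      rho k * (pos X (cs a k p + E (kk k + 1)) - pos X (cs a k p)) =
      rho k * (pos X (cs a k p + E (kk k + 2)) - pos X (cs a k p + E (kk k + 1))) := by ring
  obtain ⟨l1, l2, l3, t1, t2, t3, c12, c23, g12, g23, h12, h21, h23, h32⟩ := h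
  rw [← rho_E k] at t1
  rw [← rho_E1 k] at t2
  rw [← rho_E2 k] at t3
  rw [e1] at h12 h21
  rw [e2] at h23 h32
  simp only [norm_rho_mul] at l1 l2 l3 g12 g23 h12 h21 h23 h32
  exact ⟨l1, l2, l3, turn_rho t1, turn_rho t2, turn_rho t3, g12, g23, h12, h21, h23, h32⟩

/-- the two triangles of a cell turn by less than 30 degrees -/
theorem cell_turn {X : Set ℂ} {k : Fin 3} {t : ℂ}
    (t1 : Turn (E (kk k)) (pos X (t + E (kk k)) - pos X t))
    (t2 : Turn (E (kk k + 1)) (pos X (t + E (kk k + 1)) - pos X t))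
    (t3 : Turn (E (kk k + 2)) (pos X (t + E (kk k + 2)) - pos X t))
    (s3 : Turn (E (kk k + 2)) (pos X (t + E (kk k + 1)) - pos X (t + E (kk k))))
    (s1 : Turn (E (kk k)) (pos X (t + E (kk k + 1)) - pos X (t + E (kk k + 2)))) (b : Bool) :
    TurnT (pos X) 1 (t, kb k b) := by
  cases b
  · exact ⟨t1, t2, s3⟩
  · have hk : kk k + 1 + 1 = kk k + 2 := by rw [add_assoc]; rfl
    refine ⟨t2, ?_, ?_⟩
    · change Turn (E (kk k + 1 + 1)) (pos X (t + E (kk k + 1 + 1)) - pos X t)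
      rw [hk]; exact t3
    · change Turn (E (kk k + 1 + 2)) (pos X (t + E (kk k + 1 + 1)) - pos X (t + E (kk k + 1)))
      have hk3 : kk k + 1 + 2 = kk k + 3 := by rw [add_assoc]; rfl
      have h3 : E (kk k + 3) = -E (kk k) := Dir_three 1 (kk k)
      rw [hk, hk3, h3, ← neg_sub]
      exact turn_neg s1

theorem cell_good {el : ℝ} (hel : el ^ 2 ≤ 8 / 3) {X : Set ℂ} {k : Fin 3} {t : ℂ} (h : PS el X k t)
    (h1 : PS el X k (t + E (kk k))) (h3 : PS el X k (t + E (kk k + 2))) (b : Bool) :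
    TurnT (pos X) 1 (t, kb k b) ∧ Good (LT (pos X) 1 (t, kb k b)) := by
  have e1 : t + E (kk k) + E (kk k + 2) = t + E (kk k + 1) := by rw [E_two_sub]; ring
  have e3 : t + E (kk k + 2) + E (kk k) = t + E (kk k + 1) := by rw [E_two_sub]; ring
  have s3 := h1.t3
  have s1 := h3.t1
  have m3 := h1.l3
  have m1 := h3.l1
  rw [e1] at s3 m3
  rw [e3] at s1 m1
  have hT := cell_turn h.t1 h.t2 h.t3 s3 s1 b
  refine ⟨hT, ?_⟩
  have hsq : ∀ z : ℂ, ‖z‖ < el → ‖z‖ ^ 2 ≤ 8 / 3 := by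
    intro z hz
    have := norm_nonneg z
    nlinarith
  cases b
  · exact fam_good hT (hsq _ h.l1) (hsq _ h.l2) (hsq _ m3) h.g12 h.h12 h.h21
  · have hk : kk k + 1 + 1 = kk k + 2 := by rw [add_assoc]; rfl
    refine fam_good hT (hsq _ h.l2) ?_ ?_ ?_ ?_ ?_
    · change ‖pos X (t + E (kk k + 1 + 1)) - pos X t‖ ^ 2 ≤ 8 / 3
      rw [hk]; exact hsq _ h.l3
    · change ‖pos X (t + E (kk k + 1 + 1)) - pos X (t + E (kk k + 1))‖ ^ 2 ≤ 8 / 3
      rw [hk, norm_sub_rev]; exact hsq _ m1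
    · change ‖pos X (t + E (kk k + 1)) - pos X t‖ ^ 2 < 2 ∨ ‖pos X (t + E (kk k + 1 + 1)) - pos X t‖ ^ 2 < 2
      rw [hk]; exact h.g23
    · change ‖pos X (t + E (kk k + 1)) - pos X t‖ ^ 2 < 2 ∨
        ‖pos X (t + E (kk k + 1 + 1)) - pos X (t + E (kk k + 1))‖ ^ 2 < 2
      rw [hk]; exact h.h23
    · change ‖pos X (t + E (kk k + 1 + 1)) - pos X t‖ ^ 2 < 2 ∨
        ‖pos X (t + E (kk k + 1 + 1)) - pos X (t + E (kk k + 1))‖ ^ 2 < 2
      rw [hk]; exact h.h32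

/-- index of a cell triangle -/
abbrev Cell : Type := (_ : Fin 3) × ((ℤ × ℤ) × Bool)

/-- the displaced triangle of a cell -/
def NT (X : Set ℂ) (a : Fin 3 → ℂ) (q : Cell) : Fin 3 → ℂ :=
  LT (pos X) 1 (cs (a q.1) q.1 q.2.1, kb q.1 q.2.2)

/-- non-apex cells of one wedge -/
def cells (M : ℤ) : Finset (ℤ × ℤ) := (Finset.Ico 0 M ×ˢ Finset.Ico 0 M).erase 0

/-- non-apex cell triangles of the three wedges -/
def NI (M : Fin 3 → ℤ) : Finset Cell := Finset.univ.sigma fun k => cells (M k) ×ˢ Finset.univ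

theorem mem_cells {M : ℤ} {p : ℤ × ℤ} (h : p ∈ cells M) : 0 ≤ p ∧ p ≠ 0 := by
  unfold cells at h
  rw [Finset.mem_erase, Finset.mem_product, Finset.mem_Ico, Finset.mem_Ico] at h
  exact ⟨⟨h.2.1.1, h.2.2.1⟩, h.1⟩

theorem mem_NI {M : Fin 3 → ℤ} {q : Cell} (h : q ∈ NI M) : 0 ≤ q.2.1 ∧ q.2.1 ≠ 0 := by
  unfold NI at h
  rw [Finset.mem_sigma, Finset.mem_product] at h
  exact mem_cells h.2.1

section
variable {V : ℂ → ℝ} {κ el : ℝ} {X : Set ℂ} {a : Fin 3 → ℂ} {M : Fin 3 → ℤ}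

theorem nz_10 {p : ℤ × ℤ} (hp : 0 ≤ p) : 0 ≤ p + (1, 0) ∧ p + (1, 0) ≠ 0 := by
  have h1 := hp.1
  have h2 := hp.2
  simp at h1 h2
  refine ⟨⟨by simp; omega, by simpa using h2⟩, ?_⟩
  intro h
  have := congrArg Prod.fst h
  simp at this
  omega

theorem nz_01 {p : ℤ × ℤ} (hp : 0 ≤ p) : 0 ≤ p + (0, 1) ∧ p + (0, 1) ≠ 0 := by
  have h1 := hp.1
  have h2 := hp.2
  simp at h1 h2
  refine ⟨⟨by simpa using h1, by simp; omega⟩, ?_⟩
  intro h
  have := congrArg Prod.snd h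
  simp at this
  omega

theorem nz_11 {p : ℤ × ℤ} (hp : 0 ≤ p) : 0 ≤ p + (1, 1) ∧ p + (1, 1) ≠ 0 := by
  have h1 := hp.1
  have h2 := hp.2
  simp at h1 h2
  refine ⟨⟨by simp; omega, by simp; omega⟩, ?_⟩
  intro h
  have := congrArg Prod.fst h
  simp at this
  omega

/-- stars at all non-apex sites -/
theorem ps_all {k : Fin 3} {z : ℂ} {m : ℤ} (h : ApexData V κ el X k z m) {p : ℤ × ℤ} (hp : 0 ≤ p) (h0 : p ≠ 0) :
    PS el X k (cs z k p) := ps_of_star (h.star p hp h0)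

theorem nt_good (hel : el ^ 2 ≤ 8 / 3) (h : ∀ k, ApexData V κ el X k (a k) (M k)) {q : Cell} (hq : 0 ≤ q.2.1)
    (h0 : q.2.1 ≠ 0) : TurnT (pos X) 1 (cs (a q.1) q.1 q.2.1, kb q.1 q.2.2) ∧ Good (NT X a q) := by
  have h1 := ps_all (h q.1) hq h0
  have h2 := ps_all (h q.1) (nz_10 hq).1 (nz_10 hq).2
  have h3 := ps_all (h q.1) (nz_01 hq).1 (nz_01 hq).2
  rw [cs_10] at h2
  rw [cs_01] at h3
  exact cell_good hel h1 h2 h3 q.2.2

/-- the three vertices of a cell triangle are positions of sites `cs` with nonnegative nonzero coordinates, except the apex -/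
theorem crn_cs (z : ℂ) (k : Fin 3) (p : ℤ × ℤ) (hp : 0 ≤ p) (b : Bool) (m : Fin 3) :
    ∃ p' : ℤ × ℤ, 0 ≤ p' ∧ (p ≠ 0 ∨ m ≠ 0 → p' ≠ 0) ∧ (crn 1 (cs z k p, kb k b) m).1 = cs z k p' := by
  have hk : kk k + 1 + 1 = kk k + 2 := by rw [add_assoc]; rfl
  fin_cases m
  · exact ⟨p, hp, fun h => h.resolve_right (by simp), rfl⟩
  · cases b
    · exact ⟨p + (1, 0), (nz_10 hp).1, fun _ => (nz_10 hp).2, (cs_10 _ _ _).symm⟩
    · exact ⟨p + (1, 1), (nz_11 hp).1, fun _ => (nz_11 hp).2, (cs_11 _ _ _).symm⟩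
  · cases b
    · exact ⟨p + (1, 1), (nz_11 hp).1, fun _ => (nz_11 hp).2, (cs_11 _ _ _).symm⟩
    · refine ⟨p + (0, 1), (nz_01 hp).1, fun _ => (nz_01 hp).2, ?_⟩
      rw [cs_01]
      change cs z k p + E (kk k + 1 + 1) = _
      rw [hk]

theorem nt_mem (h : ∀ k, ApexData V κ el X k (a k) (M k)) {q : Cell} (hq : 0 ≤ q.2.1)
    (m : Fin 3) (h0 : q.2.1 ≠ 0 ∨ m ≠ 0) : NT X a q m ∈ X := by
  unfold NT
  rw [LT_apply]
  obtain ⟨p', h1, h2, h3⟩ := crn_cs (a q.1) q.1 q.2.1 hq q.2.2 m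
  rw [h3]
  exact ((h q.1).mat p' h1 (h2 h0)).1

/-- matching is injective -/
theorem pos_inj {t t' : ℂ} (ht : t ∈ Lam) (ht' : t' ∈ Lam) (h : dist (pos X t) t < 1 / 2)
    (h' : dist (pos X t') t' < 1 / 2) (e : pos X t = pos X t') : t = t' := by
  by_contra hne
  have h1 := lam_sep t ht t' ht' hne
  have h2 := dist_triangle t (pos X t) t'
  rw [dist_comm t (pos X t)] at h2
  rw [← e] at h'
  linarith

theorem nt_cone (hel : el ^ 2 ≤ 8 / 3) (h : ∀ k, ApexData V κ el X k (a k) (M k)) {c : ℂ}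
    (hc : ∀ k, ∃ p : ℤ × ℤ, 0 ≤ p ∧ a k = c + ws k p) {q q' : Cell} (hq : 0 ≤ q.2.1) (h0 : q.2.1 ≠ 0)
    (hq' : 0 ≤ q'.2.1) (h0' : q'.2.1 ≠ 0) (hne : q ≠ q') (m l : Fin 3) (e : NT X a q m = NT X a q' l) :
    Disjoint (K3 (NT X a q) m) (K3 (NT X a q') l) := by
  refine fam_cone (nt_good hel h hq h0).1 (nt_good hel h hq' h0').1 ?_ m l ?_ e
  · refine cen_ne hc hq hq' ?_
    intro hh
    apply hne
    obtain ⟨k, p, b⟩ := q
    obtain ⟨k', p', b'⟩ := q'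
    simp only [Prod.mk.injEq] at hh
    obtain ⟨rfl, rfl, rfl⟩ := hh
    rfl
  · intro e'
    obtain ⟨p1, h1, h2, h3⟩ := crn_cs (a q.1) q.1 q.2.1 hq q.2.2 m
    obtain ⟨p2, g1, g2, g3⟩ := crn_cs (a q'.1) q'.1 q'.2.1 hq' q'.2.2 l
    rw [h3, g3] at e' ⊢
    exact pos_inj (cs_mem (h q.1).mem _ _) (cs_mem (h q'.1).mem _ _) ((h q.1).mat p1 h1 (h2 (Or.inl h0))).2
      ((h q'.1).mat p2 g1 (g2 (Or.inl h0'))).2 e'

theorem nt_disj (hX : Sep X) (hel : el ^ 2 ≤ 8 / 3) (h : ∀ k, ApexData V κ el X k (a k) (M k)) {c : ℂ}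
    (hc : ∀ k, ∃ p : ℤ × ℤ, 0 ≤ p ∧ a k = c + ws k p) {q q' : Cell} (hq : 0 ≤ q.2.1) (h0 : q.2.1 ≠ 0)
    (hq' : 0 ≤ q'.2.1) (h0' : q'.2.1 ≠ 0) (hne : q ≠ q') : Disjoint (T3 (NT X a q)) (T3 (NT X a q')) := by
  by_cases hcom : ∃ k l, NT X a q k = NT X a q' l
  · obtain ⟨k, l, hkl⟩ := hcom
    exact (nt_cone hel h hc hq h0 hq' h0' hne k l hkl).mono (T3_sub_K3 _ k) (T3_sub_K3 _ l)
  · push Not at hcom
    exact (nov hX (fun m => nt_mem h hq m (Or.inl h0)) (fun m => nt_mem h hq' m (Or.inl h0')) (nt_good hel h hq h0).2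
      (nt_good hel h hq' h0').2 hcom).mono (T3_sub_C3 _) (T3_sub_C3 _)

/-- area of the two triangles of a cell -/
theorem cell_area (z : ℂ) (k : Fin 3) (p : ℤ × ℤ) :
    ∑ b : Bool, (A3 (LT (pos X) 1 (cs z k p, kb k b)) / 2 - √3 / 4) = √3 / 2 * fan (lx X k z) p := by
  have hk : kk k + 1 + 1 = kk k + 2 := by rw [add_assoc]; rfl
  have a0 : A3 (LT (pos X) 1 (cs z k p, kb k false)) =
      cr (pos X (cs z k p + E (kk k)) - pos X (cs z k p)) (pos X (cs z k p + E (kk k + 1)) - pos X (cs z k p)) := rfl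
  have a1 : A3 (LT (pos X) 1 (cs z k p, kb k true)) =
      cr (pos X (cs z k p + E (kk k + 1)) - pos X (cs z k p)) (pos X (cs z k p + E (kk k + 2)) - pos X (cs z k p)) := by
    rw [← hk]; rfl
  rw [Fintype.sum_bool, a0, a1]
  unfold fan Pool.Agent.H63.P6.exc
  rw [lx_10, lx_11, lx_01, cr_rho, cr_rho]
  have s := sq3_pos
  have s3 := sq3
  field_simp
  ring_nf

theorem nt_sum (hM : ∀ k, 1 ≤ M k) :
    ∑ q ∈ NI M, (A3 (NT X a q) / 2 - √3 / 4) = √3 / 2 * ∑ k : Fin 3,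
      (En (lx X k (a k)) (M k) (1, 0) + En (lx X k (a k)) (M k) (0, 1) - En (lx X k (a k)) (M k) (1, 1)) := by
  unfold NI
  rw [Finset.sum_sigma, Finset.mul_sum]
  refine Finset.sum_congr rfl fun k _ => ?_
  rw [Finset.sum_product]
  have h1 : ∑ x ∈ cells (M k), ∑ y ∈ (Finset.univ : Finset Bool), (A3 (NT X a ⟨k, (x, y)⟩) / 2 - √3 / 4) =
      ∑ x ∈ cells (M k), √3 / 2 * fan (lx X k (a k)) x :=
    Finset.sum_congr rfl fun p _ => cell_area (a k) k p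
  rw [h1, ← Finset.mul_sum]
  congr 1
  have h0 : (0 : ℤ × ℤ) ∈ Finset.Ico 0 (M k) ×ˢ Finset.Ico 0 (M k) := by
    rw [Finset.mem_product, Finset.mem_Ico]
    have := hM k
    exact ⟨⟨le_rfl, by change (0 : ℤ) < M k; omega⟩, by rw [Finset.mem_Ico]; exact ⟨le_rfl, by change (0 : ℤ) < M k; omega⟩⟩
  have h2 := Finset.sum_erase_add _ (fan (lx X k (a k))) h0
  have h3 := Loc_En (lx X k (a k)) (M k) 0 0 (by have := hM k; omega) (by have := hM k; omega)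
  have h4 : En (lx X k (a k)) (M k) (0, 0) =
      ∑ p ∈ Finset.Ico 0 (M k) ×ˢ Finset.Ico 0 (M k), fan (lx X k (a k)) p := by
    rw [Finset.sum_product]; rfl
  unfold cells
  have h5 : fan (lx X k (a k)) (0, 0) = fan (lx X k (a k)) 0 := rfl
  simp only [zero_add] at h3
  linarith

end

end Pool.Agent.H16.T3
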