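import Pool.Agent.H16.T3.NFAM

/-!
# VCASE: void apexes

* `turn_near`: a displacement smaller than 1/2 turns by less than 30 degrees.
* `va_turn`: the two triangles of a void apex (apex at the site itself) turn by less than 30 degrees.
* `va_cone`: cones of cell triangles are disjoint, the apex cells of void apexes included.
* `eq_case`: the equality case.
-/

set_option autoImplicit false

open Set Real Finset

noncomputable section

namespace Pool.Agent.H16.T3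

open Pool.Agent.H20.AL Pool.Agent.H63.P6

theorem turn_near {d w : ℂ} (hd : ‖d‖ = 1) (h : ‖w - d‖ < 1 / 2) : Turn d w := by
  have h1 : ‖w - d‖ ^ 2 = ‖w‖ ^ 2 - 2 * dt d w + 1 := by
    have : ‖w - d‖ ^ 2 = ‖w‖ ^ 2 - 2 * dt d w + ‖d‖ ^ 2 := by
      rw [nsq, nsq, nsq]; simp [dt]; ring
    rw [this, hd]; norm_num
  have h2 : ‖w - d‖ ^ 2 < 1 / 4 := by nlinarith [norm_nonneg (w - d)]
  have hl := lag d w
  rw [hd] at hl
  -- with x = dt, y = cr: x^2 + y^2 = |w|^2, |w|^2 - 2x + 3/4 < 0, so x > 0 and 3 y^2 < x^2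
  set x := dt d w
  set y := cr d w
  have hx : 0 < x := by nlinarith [sq_nonneg ‖w‖]
  have hy : 3 * y ^ 2 < x ^ 2 := by nlinarith [sq_nonneg (2 * x - 3 / 2)]
  rw [turn_iff]
  have s := sq3_pos
  have s3 := sq3
  have hs : (√3 * y) ^ 2 < x ^ 2 := by
    have : (√3 * y) ^ 2 = √3 * √3 * y ^ 2 := by ring
    rw [this, s3]; exact hy
  have := abs_lt_of_sq_lt_sq' hs hx.le
  exact ⟨this.2, by linarith [this.1]⟩

variable {V : ℂ → ℝ} {κ el : ℝ} {X : Set ℂ} {a : Fin 3 → ℂ} {M : Fin 3 → ℤ}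

/-- unmatched -/
def Unm (X : Set ℂ) (a : ℂ) : Prop := ∀ x ∈ X, 1 / 2 ≤ dist x a

theorem pos_unm {t : ℂ} (h : Unm X t) : pos X t = t := by
  unfold pos
  rw [dif_neg]
  rintro ⟨x, hx, hd⟩
  exact absurd hd (not_lt.2 (h x hx))

theorem unm_not_mem {t : ℂ} (h : Unm X t) : t ∉ X := by
  intro ht
  have := h t ht
  rw [dist_self] at this
  norm_num at this

/-- frames of an apex -/
theorem frame {k : Fin 3} {z : ℂ} {m : ℤ} (h : ApexData V κ el X k z m) :
    (pos X (z + E (kk k)) ∈ X ∧ dist (pos X (z + E (kk k))) (z + E (kk k)) < 1 / 2) ∧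
    (pos X (z + E (kk k + 1)) ∈ X ∧ dist (pos X (z + E (kk k + 1))) (z + E (kk k + 1)) < 1 / 2) ∧
    (pos X (z + E (kk k + 2)) ∈ X ∧ dist (pos X (z + E (kk k + 2))) (z + E (kk k + 2)) < 1 / 2) := by
  have h0 : (0 : ℤ × ℤ) ≤ 0 := le_rfl
  have a1 := h.mat (0 + (1, 0)) (nz_10 h0).1 (nz_10 h0).2
  have a2 := h.mat (0 + (1, 1)) (nz_11 h0).1 (nz_11 h0).2
  have a3 := h.mat (0 + (0, 1)) (nz_01 h0).1 (nz_01 h0).2
  have e1 := cs_10 z k 0
  have e2 := cs_11 z k 0
  have e3 := cs_01 z k 0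
  rw [cs_zero] at e1 e2 e3
  unfold cs at e1 e2 e3
  rw [e1] at a1
  rw [e2] at a2
  rw [e3] at a3
  exact ⟨a1, a2, a3⟩

theorem near_turn {z d x : ℂ} (hd : ‖d‖ = 1) (h : dist x (z + d) < 1 / 2) : Turn d (x - z) := by
  refine turn_near hd ?_
  rw [dist_eq_norm] at h
  have : x - z - d = x - (z + d) := by ring
  rw [this]; exact h

/-- the two triangles of a void apex -/
theorem va_turn {k : Fin 3} {z : ℂ} {m : ℤ} (h : ApexData V κ el X k z m) (hu : Unm X z) (b : Bool) :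
    TurnT (pos X) 1 (cs z k 0, kb k b) := by
  rw [cs_zero]
  obtain ⟨f1, f2, f3⟩ := frame h
  have h0 : (0 : ℤ × ℤ) ≤ 0 := le_rfl
  have g1 := ps_all h (nz_10 h0).1 (nz_10 h0).2
  have g3 := ps_all h (nz_01 h0).1 (nz_01 h0).2
  rw [cs_10, cs_zero] at g1
  rw [cs_01, cs_zero] at g3
  have e1 : z + E (kk k) + E (kk k + 2) = z + E (kk k + 1) := by rw [E_two_sub]; ring
  have e3 : z + E (kk k + 2) + E (kk k) = z + E (kk k + 1) := by rw [E_two_sub]; ring
  have s3 := g1.t3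
  have s1 := g3.t1
  rw [e1] at s3
  rw [e3] at s1
  refine cell_turn ?_ ?_ ?_ s3 s1 b
  · rw [pos_unm hu]; exact near_turn (norm_E _) f1.2
  · rw [pos_unm hu]; exact near_turn (norm_E _) f2.2
  · rw [pos_unm hu]; exact near_turn (norm_E _) f3.2

/-- a cell which is either not the apex, or the apex cell of a void apex -/
def OkCell (X : Set ℂ) (a : Fin 3 → ℂ) (q : Cell) : Prop := 0 ≤ q.2.1 ∧ (q.2.1 ≠ 0 ∨ Unm X (a q.1))

theorem ok_turn (hel : el ^ 2 ≤ 8 / 3) (h : ∀ k, ApexData V κ el X k (a k) (M k)) {q : Cell} (hq : OkCell X a q) :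
    TurnT (pos X) 1 (cs (a q.1) q.1 q.2.1, kb q.1 q.2.2) := by
  by_cases h0 : q.2.1 = 0
  · rw [h0]
    exact va_turn (h q.1) (hq.2.resolve_left (by simpa using h0)) q.2.2
  · exact (nt_good hel h hq.1 h0).1

/-- vertices of an ok cell: matched, or an unmatched site -/
theorem ok_vertex (h : ∀ k, ApexData V κ el X k (a k) (M k)) {q : Cell} (hq : OkCell X a q) (m : Fin 3) :
    (crn 1 (cs (a q.1) q.1 q.2.1, kb q.1 q.2.2) m).1 ∈ Lam ∧
    ((pos X (crn 1 (cs (a q.1) q.1 q.2.1, kb q.1 q.2.2) m).1 ∈ X ∧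
      dist (pos X (crn 1 (cs (a q.1) q.1 q.2.1, kb q.1 q.2.2) m).1)
        (crn 1 (cs (a q.1) q.1 q.2.1, kb q.1 q.2.2) m).1 < 1 / 2) ∨
    Unm X (crn 1 (cs (a q.1) q.1 q.2.1, kb q.1 q.2.2) m).1) := by
  obtain ⟨p', h1, h2, h3⟩ := crn_cs (a q.1) q.1 q.2.1 hq.1 q.2.2 m
  rw [h3]
  refine ⟨cs_mem (h q.1).mem _ _, ?_⟩
  by_cases hp : p' = 0
  · right
    have h4 : q.2.1 = 0 := by
      by_contra hcon
      exact h2 (Or.inl hcon) hp
    rw [hp, cs_zero]
    exact hq.2.resolve_left (by simpa using h4)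
  · left
    exact (h q.1).mat p' h1 hp

theorem ok_cone (hel : el ^ 2 ≤ 8 / 3) (h : ∀ k, ApexData V κ el X k (a k) (M k)) {c : ℂ}
    (hc : ∀ k, ∃ p : ℤ × ℤ, 0 ≤ p ∧ a k = c + ws k p) {q q' : Cell} (hq : OkCell X a q) (hq' : OkCell X a q')
    (hne : q ≠ q') (m l : Fin 3) (e : NT X a q m = NT X a q' l) :
    Disjoint (K3 (NT X a q) m) (K3 (NT X a q') l) := by
  refine fam_cone (ok_turn hel h hq) (ok_turn hel h hq') ?_ m l ?_ e
  · refine cen_ne hc hq.1 hq'.1 ?_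
    intro hh
    apply hne
    obtain ⟨k, p, b⟩ := q
    obtain ⟨k', p', b'⟩ := q'
    simp only [Prod.mk.injEq] at hh
    obtain ⟨rfl, rfl, rfl⟩ := hh
    rfl
  · intro e'
    obtain ⟨l1, v1⟩ := ok_vertex h hq m
    obtain ⟨l2, v2⟩ := ok_vertex h hq' l
    rcases v1 with v1 | v1 <;> rcases v2 with v2 | v2
    · exact pos_inj l1 l2 v1.2 v2.2 e'
    · exfalso
      rw [pos_unm v2] at e'
      exact unm_not_mem v2 (e' ▸ v1.1)
    · exfalso
      rw [pos_unm v1] at e'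
      exact unm_not_mem v1 (e' ▸ v2.1)
    · rw [pos_unm v1, pos_unm v2] at e'
      exact e'

/-! ### the equality case -/

/-- every lattice vector is in one of the three closed cones -/
theorem cone_cover (m n : ℤ) : ∃ (k : Fin 3) (p : ℤ × ℤ), 0 ≤ p ∧ (m : ℂ) + n * om = ws k p := by
  have h2 := om_sq
  have h4 : om ^ 4 = -om := by
    have : om ^ 4 = om ^ 3 * om := by ring
    rw [this, om_cube]; ring
  have h6 := om_six
  -- m + n om = (m + n) * 1 + n * om^2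
  by_cases h1 : 0 ≤ n ∧ 0 ≤ m + n
  · refine ⟨0, (m + n, n), ⟨h1.2, h1.1⟩, ?_⟩
    simp [ws]
    rw [h2]; ring
  · by_cases h3 : m ≤ 0 ∧ m + n ≤ 0
    · -- k = 1: p1 om^2 + p2 om^4 = p1 (om - 1) - p2 om, p1 = -m, p2 = -m - n
      refine ⟨1, (-m, -m - n), ⟨by change 0 ≤ -m; omega, by change 0 ≤ -m - n; omega⟩, ?_⟩
      simp [ws]
      rw [h2, h4]; ring
    · -- k = 2: p1 om^4 + p2 om^6 = - p1 om + p2
      refine ⟨2, (-n, m), ⟨by change 0 ≤ -n; omega, by change 0 ≤ m; omega⟩, ?_⟩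
      simp [ws]
      rw [h4, h6]; ring

theorem fan_nonneg (hdp : DP V κ el) (hX : Sep X) {k : Fin 3} {z : ℂ} {m : ℤ} (h : ApexData V κ el X k z m)
    {p : ℤ × ℤ} (hp : 0 ≤ p) (h0 : p ≠ 0) : 0 ≤ fan (lx X k z) p := by
  have hs := h.star p hp h0
  have hs1 := h.star _ (nz_10 hp).1 (nz_10 hp).2
  have hs3 := h.star _ (nz_01 hp).1 (nz_01 hp).2
  have hsep : ∀ q q' : ℤ × ℤ, 0 ≤ q → q ≠ 0 → 0 ≤ q' → q' ≠ 0 → lx X k z q' - lx X k z q ≠ 0 →
      1 ≤ ‖lx X k z q' - lx X k z q‖ := by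
    intro q q' hq hq0 hq' hq0' hne
    rw [lx_sub, norm_rho_mul] at *
    have h1 := (h.mat q hq hq0).1
    have h2 := (h.mat q' hq' hq0').1
    have h3 := hX _ h2 _ h1 (by
      intro e
      apply hne
      unfold cs
      rw [e, sub_self, mul_zero])
    rw [dist_eq_norm] at h3
    exact h3
  have e11 : p + (1, 0) + (0, 1) = p + (1, 1) := by
    rw [add_assoc]; rfl
  have e12 : p + (0, 1) + (1, 0) = p + (1, 1) := by
    rw [add_assoc]; rfl
  have k1 : 0 ≤ κ := hdp.kap.le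
  unfold StarAt at hs hs1 hs3
  rw [e11] at hs1
  rw [e12] at hs3
  have hne : ∀ w w' : ℂ, 0 < cr w w' → w ≠ 0 ∧ w' ≠ 0 := by
    intro w w' hc
    constructor
    · rintro rfl; simp [cr] at hc
    · rintro rfl; simp [cr] at hc
  have n1 := hsep p (p + (1, 0)) hp h0 (nz_10 hp).1 (nz_10 hp).2 (hne _ _ hs.c12).1
  have n2 := hsep p (p + (1, 1)) hp h0 (nz_11 hp).1 (nz_11 hp).2 (hne _ _ hs.c12).2
  have n3 := hsep p (p + (0, 1)) hp h0 (nz_01 hp).1 (nz_01 hp).2 (hne _ _ hs.c23).2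
  have tne : ∀ {d w : ℂ}, Turn d w → w ≠ 0 := by
    intro d w ht hw
    have := sgn0 ht
    rw [hw] at this
    simp [dt] at this
  have n12 := hsep (p + (1, 0)) (p + (1, 1)) (nz_10 hp).1 (nz_10 hp).2 (nz_11 hp).1 (nz_11 hp).2 (tne hs1.t3)
  have n32 := hsep (p + (0, 1)) (p + (1, 1)) (nz_01 hp).1 (nz_01 hp).2 (nz_11 hp).1 (nz_11 hp).2 (tne hs3.t1)
  have f12 := hdp.exc (lx X k z (p + (1, 0)) - lx X k z p) (lx X k z (p + (1, 1)) - lx X k z p) n1 n2
    (by rw [sub_sub_sub_cancel_right]; exact n12) hs.l1 hs.l2 (by rw [sub_sub_sub_cancel_right]; exact hs1.l3) hs.c12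
  have f23 := hdp.exc (lx X k z (p + (1, 1)) - lx X k z p) (lx X k z (p + (0, 1)) - lx X k z p) n2 n3
    (by rw [sub_sub_sub_cancel_right, norm_sub_rev]; exact n32) hs.l2 hs.l3
    (by rw [sub_sub_sub_cancel_right, norm_sub_rev]; exact hs3.l1) hs.c23
  rw [sub_sub_sub_cancel_right] at f12 f23
  rw [norm_sub_rev] at n32
  have g12 : 0 ≤ κ * ((‖lx X k z (p + (1, 0)) - lx X k z p‖ - 1) + (‖lx X k z (p + (1, 1)) - lx X k z p‖ - 1) +
      (‖lx X k z (p + (1, 1)) - lx X k z (p + (1, 0))‖ - 1)) := mul_nonneg k1 (by linarith)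
  have g23 : 0 ≤ κ * ((‖lx X k z (p + (1, 1)) - lx X k z p‖ - 1) + (‖lx X k z (p + (0, 1)) - lx X k z p‖ - 1) +
      (‖lx X k z (p + (0, 1)) - lx X k z (p + (1, 1))‖ - 1)) := mul_nonneg k1 (by linarith)
  unfold fan Pool.Agent.H63.P6.exc
  linarith

/-- the energy of a wedge is at most the energy of the whole non-apex part -/
theorem En_le (hdp : DP V κ el) (hX : Sep X) {k : Fin 3} {z : ℂ} {m : ℤ} (h : ApexData V κ el X k z m)
    {p : ℤ × ℤ} (hp : 0 ≤ p) (h0 : p ≠ 0) : En (lx X k z) m p ≤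
      En (lx X k z) m (1, 0) + En (lx X k z) m (0, 1) - En (lx X k z) m (1, 1) := by
  have hm := h.one
  have h3 := Loc_En (lx X k z) m 0 0 (by omega) (by omega)
  have h4 : En (lx X k z) m (0, 0) = ∑ q ∈ Finset.Ico 0 m ×ˢ Finset.Ico 0 m, fan (lx X k z) q := by
    rw [Finset.sum_product]; rfl
  have hz : (0 : ℤ × ℤ) ∈ Finset.Ico 0 m ×ˢ Finset.Ico 0 m := by
    rw [Finset.mem_product, Finset.mem_Ico, Finset.mem_Ico]
    exact ⟨⟨le_rfl, by change (0 : ℤ) < m; omega⟩, ⟨le_rfl, by change (0 : ℤ) < m; omega⟩⟩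
  have h2 := Finset.sum_erase_add _ (fan (lx X k z)) hz
  have h5 : fan (lx X k z) (0, 0) = fan (lx X k z) 0 := rfl
  have h6 : En (lx X k z) m p = ∑ q ∈ Finset.Ico p.1 m ×ˢ Finset.Ico p.2 m, fan (lx X k z) q := by
    rw [Finset.sum_product]; rfl
  have h7 : ∑ q ∈ Finset.Ico p.1 m ×ˢ Finset.Ico p.2 m, fan (lx X k z) q ≤
      ∑ q ∈ (Finset.Ico 0 m ×ˢ Finset.Ico 0 m).erase 0, fan (lx X k z) q := by
    refine Finset.sum_le_sum_of_subset_of_nonneg ?_ ?_
    · intro q hq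
      rw [Finset.mem_product, Finset.mem_Ico, Finset.mem_Ico] at hq
      rw [Finset.mem_erase, Finset.mem_product, Finset.mem_Ico, Finset.mem_Ico]
      have c1 := hp.1
      have c2 := hp.2
      simp at c1 c2
      refine ⟨?_, ⟨by omega, hq.1.2⟩, ⟨by omega, hq.2.2⟩⟩
      rintro rfl
      apply h0
      have d1 : p.1 = 0 := le_antisymm hq.1.1 c1
      have d2 : p.2 = 0 := le_antisymm hq.2.1 c2
      exact Prod.ext d1 d2
    · intro q hq _
      rw [Finset.mem_erase, Finset.mem_product, Finset.mem_Ico, Finset.mem_Ico] at hq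
      exact fan_nonneg hdp hX h ⟨hq.2.1.1, hq.2.2.1⟩ hq.1
  simp only [zero_add] at h3
  linarith

/-- no energy: everything is exact -/
theorem exact_of_zero (hdp : DP V κ el) (hV : ∀ u, V u ≤ 0 → u = 0) (hX : Sep X) {k : Fin 3} {z : ℂ} {m : ℤ}
    (h : ApexData V κ el X k z m)
    (hE : En (lx X k z) m (1, 0) + En (lx X k z) m (0, 1) - En (lx X k z) m (1, 1) ≤ 0)
    {p : ℤ × ℤ} (hp : 0 ≤ p) (h0 : p ≠ 0) : pos X (cs z k p) = cs z k p := by
  have h1 := h.pot p hp h0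
  have h2 := En_le hdp hX h hp h0
  have h3 := hV _ (by linarith)
  have h4 : lx X k z p = st p := by
    unfold disp at h3
    linear_combination h3
  have h5 : rho k * (pos X (cs z k p) - z) = rho k * ws k p := by
    have e : rho k * ws k p = st p := by
      unfold ws st
      rw [← E_kk, ← E_kk2, ← rho_E k, ← rho_E2 k]; ring
    rw [e, ← h4]; rfl
  have hr : rho k ≠ 0 := by
    intro h0
    have := norm_rho k
    rw [h0, norm_zero] at this
    norm_num at this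
  have h6 := mul_left_cancel₀ hr h5
  unfold cs at *
  linear_combination h6

/-- the equality case: all apexes unmatched, no energy -/
theorem eq_case {s : ℂ} (hs : s ∈ Lam) (g : ℂ → ℂ) (hfin : ((Lam \ {s}) ∩ {c | g c ≠ c}).Finite)
    (hg : ∀ c ∈ Lam \ {s}, ∀ d ∈ Lam \ {s}, c ≠ d → (1 : ℝ) ≤ dist (g c) (g d))
    (hXg : X = g '' (Lam \ {s})) (hdp : DP V κ el) (hV : ∀ u, V u ≤ 0 → u = 0) {c : ℂ}
    (hc : ∀ k, ∃ p : ℤ × ℤ, 0 ≤ p ∧ a k = c + ws k p) (h : ∀ k, ApexData V κ el X k (a k) (M k))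
    (hu : ∀ k, Unm X (a k))
    (hE : ∀ k, En (lx X k (a k)) (M k) (1, 0) + En (lx X k (a k)) (M k) (0, 1) - En (lx X k (a k)) (M k) (1, 1) ≤ 0)
    (hmiss : ∀ k, ∀ y ∈ X, y ≠ pos X (a k + E (kk k)) → y ≠ pos X (a k + E (kk k + 1)) →
      y ≠ pos X (a k + E (kk k + 2)) → ∀ b, Disjoint (D y) (T3 (NT X a ⟨k, (0, b)⟩))) :
    ∃ z ∈ Lam, X = Lam \ {z} := by
  have hsep : Sep X := by
    subst hXg
    rintro x ⟨c, hc, rfl⟩ y ⟨d, hd, rfl⟩ hne
    exact hg c hc d hd (fun h => hne (by rw [h]))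
  have hex : ∀ k (p : ℤ × ℤ), 0 ≤ p → p ≠ 0 → pos X (cs (a k) k p) = cs (a k) k p := fun k p hp h0 =>
    exact_of_zero hdp hV hsep (h k) (hE k) hp h0
  have h0 : (0 : ℤ × ℤ) ≤ 0 := le_rfl
  have f1 : ∀ k, pos X (a k + E (kk k)) = a k + E (kk k) := by
    intro k
    have := hex k _ (nz_10 h0).1 (nz_10 h0).2
    rwa [cs_10, cs_zero] at this
  have f2 : ∀ k, pos X (a k + E (kk k + 1)) = a k + E (kk k + 1) := by
    intro k
    have := hex k _ (nz_11 h0).1 (nz_11 h0).2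
    rwa [cs_11, cs_zero] at this
  have f3 : ∀ k, pos X (a k + E (kk k + 2)) = a k + E (kk k + 2) := by
    intro k
    have := hex k _ (nz_01 h0).1 (nz_01 h0).2
    rwa [cs_01, cs_zero] at this
  have hk : ∀ k, kk k + 1 + 1 = kk k + 2 := fun k => by rw [add_assoc]; rfl
  have hNT : ∀ k b, NT X a ⟨k, (0, b)⟩ = VT (a k) (kb k b) := by
    intro k b
    unfold NT LT VT
    simp only
    rw [cs_zero, pos_unm (hu k)]
    cases b
    · have e1 : pos X (a k + Dir 1 (kb k false)) = a k + E (kb k false) := f1 k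
      have e2 : pos X (a k + Dir 1 (kb k false + 1)) = a k + E (kb k false + 1) := f2 k
      rw [e1, e2]
    · have e1 : pos X (a k + Dir 1 (kb k true)) = a k + E (kb k true) := f2 k
      have e2 : pos X (a k + Dir 1 (kb k true + 1)) = a k + E (kb k true + 1) := by
        change pos X (a k + E (kk k + 1 + 1)) = a k + E (kk k + 1 + 1)
        rw [hk]; exact f3 k
      rw [e1, e2]
  have hV0 : ∀ k, Void X (a k) (kk k) := by
    intro k
    obtain ⟨g1, g2, g3⟩ := frame (h k)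
    rw [f1 k] at g1
    rw [f2 k] at g2
    rw [f3 k] at g3
    refine ⟨g1.1, g2.1, g3.1, unm_not_mem (hu k), ?_, ?_⟩
    · intro y hy y0 y1 y2
      have := hmiss k y hy (by rw [f1 k]; exact y0) (by rw [f2 k]; exact y1) (by rw [f3 k]; exact y2) false
      rw [hNT] at this
      exact this
    · intro y hy y0 y1 y2
      have := hmiss k y hy (by rw [f1 k]; exact y0) (by rw [f2 k]; exact y1) (by rw [f3 k]; exact y2) true
      rw [hNT] at this
      change Disjoint (D y) (Tri (a k) (a k + E (kk k + 1)) (a k + E (kk k + 1 + 1))) at this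
      rw [hk] at this
      exact this
  have hdisj : ∀ i j, i ≠ j → ∀ b b' : Bool,
      Disjoint (T3 (VT (a i) (kb i b))) (T3 (VT (a j) (kb j b'))) := by
    intro i j hij b b'
    -- lattice triangles in different open cones
    rw [Set.disjoint_left]
    intro p hp hq
    obtain ⟨p0, hp0, e0⟩ := hc i
    obtain ⟨q0, hq0, g0⟩ := hc j
    have s := sq3_pos
    have key : ∀ (k : Fin 3) (b : Bool) (r0 : ℤ × ℤ), 0 ≤ r0 → a k = c + ws k r0 → p ∈ T3 (VT (a k) (kb k b)) →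
        ∃ α β : ℝ, 0 < α ∧ 0 < β ∧ p = c + (α * E (kk k) + β * E (kk k + 2)) := by
      intro k b r0 hr0 er hpk
      have c1 : (0 : ℝ) ≤ r0.1 := by exact_mod_cast hr0.1
      have c2 : (0 : ℝ) ≤ r0.2 := by exact_mod_cast hr0.2
      have hE1 : E (kk k + 1) = E (kk k) + E (kk k + 2) := by rw [E_two_sub]; ring
      cases b
      · have hcr : 0 < cr (E (kk k)) (E (kk k + 1)) := by rw [cr_E]; positivity
        obtain ⟨α, β, hα, hβ, -, e⟩ := decomp hcr hpk
        have e' : p - a k = α * E (kk k) + β * E (kk k + 1) := e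
        refine ⟨r0.1 + (α + β), r0.2 + β, by linarith, by linarith, ?_⟩
        rw [er, ws, ← E_kk, ← E_kk2, hE1] at e'
        push_cast
        linear_combination e'
      · have hcr : 0 < cr (E (kk k + 1)) (E (kk k + 1 + 1)) := by rw [cr_E]; positivity
        obtain ⟨α, β, hα, hβ, -, e⟩ := decomp hcr hpk
        have e' : p - a k = α * E (kk k + 1) + β * E (kk k + 1 + 1) := e
        refine ⟨r0.1 + α, r0.2 + (α + β), by linarith, by linarith, ?_⟩
        rw [hk, er, ws, ← E_kk, ← E_kk2, hE1] at e'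
        push_cast
        linear_combination e'
    obtain ⟨α, β, hα, hβ, e1⟩ := key i b p0 hp0 e0 hp
    obtain ⟨α', β', hα', hβ', e2⟩ := key j b' q0 hq0 g0 hq
    refine cone_ne hij hα hβ hα' hβ' ?_
    have := e1.symm.trans e2
    exact add_left_cancel this
  obtain ⟨e10, e20⟩ := eq_same hs g hfin hg hXg a (fun k => (h k).mem) hV0 hdisj
  have hall : ∀ k, a k = a 0 := by
    intro k
    fin_cases k
    · rfl
    · exact e10
    · exact e20
  refine ⟨a 0, (h 0).mem, ?_⟩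
  refine eq_fin hsep (h 0).mem (unm_not_mem (hu 0)) ?_
  rintro z ⟨hz, hza⟩
  -- z - a 0 is a lattice vector
  obtain ⟨m, n, rfl⟩ := hz
  obtain ⟨m0, n0, hm0⟩ := (h 0).mem
  obtain ⟨k, p, hp, e⟩ := cone_cover (m - m0) (n - n0)
  have hz2 : (m : ℂ) + n * ((1 / 2 : ℂ) + ((Real.sqrt 3 / 2 : ℝ) : ℂ) * Complex.I) = cs (a k) k p := by
    unfold cs
    rw [← e, hall k, hm0, ← om_eq]
    push_cast; ring
  have hp0 : p ≠ 0 := by
    rintro rfl
    rw [cs_zero, hall k] at hz2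
    exact hza hz2
  rw [hz2]
  have h1 := (h k).mat p hp hp0
  have h2 := hex k p hp hp0
  unfold cs at h2
  rw [h2] at h1
  exact h1.1

end Pool.Agent.H16.T3
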